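import Pool.Agent.H297.AL.Artin

/-!
# The free alternative algebra on two generators and its graded dimensions
-/

set_option autoImplicit false

noncomputable section

namespace Pool.Agent.H297.AL

variable (k : Type) [Field k]

/-- The free nonassociative (non-unital) algebra on two generators. -/
abbrev FN : Type := FreeNonUnitalNonAssocAlgebra k (Fin 2)

/-- The elements obtained from the elements `(a a) b - a (a b)` and `(b a) a - b (a a)` by
multiplications from the left and from the right. -/
inductive Gen : FN k → Prop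
  | left (a b : FN k) : Gen ((a * a) * b - a * (a * b))
  | right (a b : FN k) : Gen ((b * a) * a - b * (a * a))
  | mul_left (a : FN k) {u : FN k} : Gen u → Gen (a * u)
  | mul_right (a : FN k) {u : FN k} : Gen u → Gen (u * a)

/-- The ideal of the free nonassociative algebra generated by the alternative laws. -/
def altIdeal : Submodule k (FN k) := Submodule.span k {u | Gen k u}

/-- The free (non-unital) alternative algebra on two generators, `Alt(V)` for `V = k²`. -/
def Alt : Type := FN k ⧸ altIdeal k

instance : AddCommGroup (Alt k) := Submodule.Quotient.addCommGroup (altIdeal k)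

instance : Module k (Alt k) := Submodule.Quotient.module (altIdeal k)

/-- the projection -/
def mk : FN k →ₗ[k] Alt k := (altIdeal k).mkQ

lemma altIdeal_mul_left (a : FN k) {u : FN k} (hu : u ∈ altIdeal k) : a * u ∈ altIdeal k := by
  induction hu using Submodule.span_induction with
  | mem x h => exact Submodule.subset_span (Gen.mul_left a h)
  | zero => rw [mul_zero]; exact Submodule.zero_mem _
  | add x y _ _ h1 h2 => rw [mul_add]; exact Submodule.add_mem _ h1 h2
  | smul t x _ h => rw [mul_smul_comm]; exact Submodule.smul_mem _ _ h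

lemma altIdeal_mul_right (a : FN k) {u : FN k} (hu : u ∈ altIdeal k) : u * a ∈ altIdeal k := by
  induction hu using Submodule.span_induction with
  | mem x h => exact Submodule.subset_span (Gen.mul_right a h)
  | zero => rw [zero_mul]; exact Submodule.zero_mem _
  | add x y _ _ h1 h2 => rw [add_mul]; exact Submodule.add_mem _ h1 h2
  | smul t x _ h => rw [smul_mul_assoc]; exact Submodule.smul_mem _ _ h

lemma mk_eq_zero {u : FN k} : mk k u = 0 ↔ u ∈ altIdeal k := Submodule.Quotient.mk_eq_zero _

lemma mk_surj : Function.Surjective (mk k) := Submodule.mkQ_surjective _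

/-- the multiplication of `Alt(V)`: the class of the product of representatives -/
def mulA (x y : Alt k) : Alt k := mk k (Function.surjInv (mk_surj k) x * Function.surjInv (mk_surj k) y)

lemma mulA_mk (a b : FN k) : mulA k (mk k a) (mk k b) = mk k (a * b) := by
  unfold mulA
  set a' := Function.surjInv (mk_surj k) (mk k a)
  set b' := Function.surjInv (mk_surj k) (mk k b)
  have ha : mk k (a' - a) = 0 := by
    rw [map_sub, Function.surjInv_eq (mk_surj k), sub_self]
  have hb : mk k (b' - b) = 0 := by
    rw [map_sub, Function.surjInv_eq (mk_surj k), sub_self]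
  rw [← sub_eq_zero, ← map_sub, mk_eq_zero]
  have h : a' * b' - a * b = (a' - a) * b' + a * (b' - b) := by
    rw [sub_mul, mul_sub]
    abel
  rw [h]
  exact Submodule.add_mem _ (altIdeal_mul_right k _ ((mk_eq_zero k).1 ha))
    (altIdeal_mul_left k _ ((mk_eq_zero k).1 hb))

instance : NonUnitalNonAssocRing (Alt k) where
  mul := mulA k
  left_distrib x y z := by
    obtain ⟨a, rfl⟩ := mk_surj k x
    obtain ⟨b, rfl⟩ := mk_surj k y
    obtain ⟨c, rfl⟩ := mk_surj k z
    change mulA k _ _ = mulA k _ _ + mulA k _ _
    rw [← map_add, mulA_mk, mulA_mk, mulA_mk, mul_add, map_add]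
  right_distrib x y z := by
    obtain ⟨a, rfl⟩ := mk_surj k x
    obtain ⟨b, rfl⟩ := mk_surj k y
    obtain ⟨c, rfl⟩ := mk_surj k z
    change mulA k _ _ = mulA k _ _ + mulA k _ _
    rw [← map_add, mulA_mk, mulA_mk, mulA_mk, add_mul, map_add]
  zero_mul x := by
    obtain ⟨a, rfl⟩ := mk_surj k x
    change mulA k 0 _ = 0
    rw [← map_zero (mk k), mulA_mk, zero_mul]
  mul_zero x := by
    obtain ⟨a, rfl⟩ := mk_surj k x
    change mulA k _ 0 = 0
    rw [← map_zero (mk k), mulA_mk, mul_zero]

lemma mk_mul (a b : FN k) : mk k (a * b) = mk k a * mk k b := (mulA_mk k a b).symm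

instance : IsAlternative (Alt k) where
  left x y := by
    obtain ⟨a, rfl⟩ := mk_surj k x
    obtain ⟨b, rfl⟩ := mk_surj k y
    rw [← mk_mul, ← mk_mul, ← mk_mul, ← mk_mul, ← sub_eq_zero, ← map_sub, mk_eq_zero]
    exact Submodule.subset_span (Gen.left a b)
  right x y := by
    obtain ⟨a, rfl⟩ := mk_surj k x
    obtain ⟨b, rfl⟩ := mk_surj k y
    rw [← mk_mul, ← mk_mul, ← mk_mul, ← mk_mul, ← sub_eq_zero, ← map_sub, mk_eq_zero]
    exact Submodule.subset_span (Gen.right a b)

/-- The monomial in `Alt(V)` given by a nonassociative word in the two generators. -/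
def mon (w : FreeMagma (Fin 2)) : Alt k := mk k (MonoidAlgebra.single w 1)

lemma mon_mul (v w : FreeMagma (Fin 2)) : mon k (v * w) = mon k v * mon k w := by
  unfold mon
  rw [← mk_mul, MonoidAlgebra.single_mul_single, one_mul]

/-- The number of occurrences of the generator `i` in a word. -/
def cnt (i : Fin 2) : FreeMagma (Fin 2) → ℕ
  | .of j => if j = i then 1 else 0
  | .mul v w => cnt i v + cnt i w

/-- The multidegree of a word. -/
def wt (w : FreeMagma (Fin 2)) : ℕ × ℕ := (cnt 0 w, cnt 1 w)

/-- The component of `Alt(V)` of multidegree `d`, i.e. the weight space of weight `d` for the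
diagonal matrices in `GL(V)`. -/
def pieceA (d : ℕ × ℕ) : Submodule k (Alt k) := Submodule.span k {x | ∃ w, wt w = d ∧ x = mon k w}

/-- The character of `Alt(V)`. -/
def chA (d : ℕ × ℕ) : ℕ := Module.finrank k (pieceA k d)

/-! ### The space `B(Alt(V))` -/

open TensorProduct

/-- The relations of `B(A) = Λ²(A) / span {ab ∧ c + bc ∧ a + ca ∧ b}`, as a quotient of
`A ⊗ A`. -/
def relB : Submodule k (Alt k ⊗[k] Alt k) :=
  Submodule.span k ({t | ∃ a : Alt k, t = a ⊗ₜ a} ∪
    {t | ∃ a b c : Alt k, t = (a * b) ⊗ₜ c + (b * c) ⊗ₜ a + (c * a) ⊗ₜ b})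

/-- The component of multidegree `d` of `B(Alt(V))`. -/
def pieceB (d : ℕ × ℕ) : Submodule k ((Alt k ⊗[k] Alt k) ⧸ relB k) :=
  Submodule.span k {x | ∃ v w, wt v + wt w = d ∧ x = (relB k).mkQ (mon k v ⊗ₜ mon k w)}

/-- The character of `B(Alt(V))`. -/
def chB (d : ℕ × ℕ) : ℕ := Module.finrank k (pieceB k d)

end Pool.Agent.H297.AL
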