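import Mathlib

/-!
# Artin's theorem on alternative algebras, for products of two given elements
-/

set_option autoImplicit false

namespace Pool.Agent.H297.AL

/-- alternative rings: `(x x) y = x (x y)` and `(y x) x = y (x x)` -/
class IsAlternative (A : Type) [NonUnitalNonAssocRing A] : Prop where
  left : ∀ x y : A, (x * x) * y = x * (x * y)
  right : ∀ x y : A, (y * x) * x = y * (x * x)

section

variable {A : Type} [NonUnitalNonAssocRing A]

/-- the associator -/
def asc (a b c : A) : A := (a * b) * c - a * (b * c)

lemma asc_add₁ (a a' b c : A) : asc (a + a') b c = asc a b c + asc a' b c := by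
  simp only [asc, add_mul]
  abel

lemma asc_add₂ (a b b' c : A) : asc a (b + b') c = asc a b c + asc a b' c := by
  simp only [asc, add_mul, mul_add]
  abel

lemma asc_add₃ (a b c c' : A) : asc a b (c + c') = asc a b c + asc a b c' := by
  simp only [asc, mul_add]
  abel

/-- the Teichmüller identity -/
lemma teich (w x y z : A) :
    asc (w * x) y z - asc w (x * y) z + asc w x (y * z) = w * asc x y z + asc w x y * z := by
  simp only [asc, mul_sub, sub_mul]
  abel

variable [IsAlternative A]

lemma asc_xx (x y : A) : asc x x y = 0 := by
  rw [asc, IsAlternative.left, sub_self]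

lemma asc_yy (x y : A) : asc x y y = 0 := by
  rw [asc, IsAlternative.right, sub_self]

lemma asc_swap₁ (x y z : A) : asc x y z = - asc y x z := by
  have h := asc_xx (x + y) z
  rw [asc_add₁, asc_add₂, asc_add₂, asc_xx, asc_xx, zero_add, add_zero] at h
  exact eq_neg_of_add_eq_zero_left h

lemma asc_swap₂ (x y z : A) : asc x y z = - asc x z y := by
  have h := asc_yy x (y + z)
  rw [asc_add₂, asc_add₃, asc_add₃, asc_yy, asc_yy, zero_add, add_zero] at h
  exact eq_neg_of_add_eq_zero_left h

lemma asc_xyx (x y : A) : asc x y x = 0 := by
  rw [asc_swap₁, asc_yy, neg_zero]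

/-- cyclic rotation -/
lemma asc_cyc (x y z : A) : asc x y z = asc z x y := by
  rw [asc_swap₂, asc_swap₁, neg_neg]

lemma moufang1 (x y z : A) : asc (x * x) y z = asc x (x * y) z + x * asc x y z := by
  have h := teich x x y z
  rw [asc_xx, asc_xx, zero_mul, add_zero, add_zero, sub_eq_iff_eq_add] at h
  rw [h, add_comm]

lemma moufang2 (x y z : A) : asc (x * x) y z = asc x y z * x + asc x y (z * x) := by
  have h := teich y z x x
  rw [asc_yy, asc_yy, mul_zero, zero_add, zero_sub] at h
  rw [asc_cyc (y) (z * x) x, asc_cyc y z (x * x), asc_cyc y z x] at h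
  rw [← h]
  abel

lemma moufang3 (x y z : A) : asc x (x * y) z = asc x y (x * z) := by
  have h1 := moufang1 x y z
  have h2 := moufang1 x z y
  rw [asc_swap₂ (x * x) z y, asc_swap₂ x (x * z) y, asc_swap₂ x z y, mul_neg, ← neg_add] at h2
  rw [neg_inj] at h2
  rw [h2] at h1
  exact (add_right_cancel h1).symm

lemma moufang4 (x y z : A) : asc x (y * x) z = x * asc x y z := by
  have h := teich x y x z
  rw [asc_xyx, zero_mul, add_zero, asc_swap₁ (x * y) x z, asc_swap₁ y x z, mul_neg,
    moufang3 x y z] at h
  have h2 : -asc x y (x * z) - asc x (y * x) z + asc x y (x * z) = - asc x (y * x) z := by abel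
  rw [h2, neg_inj] at h
  exact h

/-- `(x, x y, z) = (x, y, z) x` -/
lemma moufang5 (x y z : A) : asc x (x * y) z = asc x y z * x := by
  have h1 := moufang1 x y z
  have h2 := moufang2 x y z
  have h3 : asc x y (z * x) = x * asc x y z := by
    rw [asc_swap₂, moufang4, asc_swap₂ x z y, mul_neg, neg_neg]
  rw [h3] at h2
  rw [h2] at h1
  exact (add_right_cancel h1).symm

lemma moufang6 (x w y z : A) :
    asc x (w * y) z + asc w (x * y) z = asc x y z * w + asc w y z * x := by
  have h := moufang5 (x + w) y z
  rw [add_mul, asc_add₁, asc_add₂, asc_add₂, asc_add₁, mul_add, add_mul, add_mul, moufang5,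
    moufang5] at h
  have h2 : asc x y z * x + asc x (w * y) z + (asc w (x * y) z + asc w y z * w) =
    (asc x (w * y) z + asc w (x * y) z) + (asc x y z * x + asc w y z * w) := by abel
  have h3 : asc x y z * x + asc w y z * x + (asc x y z * w + asc w y z * w) =
    (asc x y z * w + asc w y z * x) + (asc x y z * x + asc w y z * w) := by abel
  rw [h2, h3] at h
  exact add_right_cancel h

/-- right-normed products `x (y (z ...))` -/
def pr (g : Fin 2 → A) : Fin 2 → List (Fin 2) → A
  | i, [] => g i
  | i, j :: l => g i * pr g j l

omit [IsAlternative A] in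
lemma pr_nil (g : Fin 2 → A) (i : Fin 2) : pr g i [] = g i := rfl
omit [IsAlternative A] in
lemma pr_cons (g : Fin 2 → A) (i j : Fin 2) (l : List (Fin 2)) :
    pr g i (j :: l) = g i * pr g j l := rfl

omit [IsAlternative A] in
/-- multiplicativity, in small lengths, from the vanishing of associators -/
lemma pr_mul_of (g : Fin 2 → A) (N : ℕ)
    (h : ∀ (i j m : Fin 2) (p q r : List (Fin 2)), p.length + q.length + r.length + 3 ≤ N →
      asc (pr g i p) (pr g j q) (pr g m r) = 0) :
    ∀ (p : List (Fin 2)) (i j : Fin 2) (q : List (Fin 2)), p.length + q.length + 2 ≤ N →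
      pr g i p * pr g j q = pr g i (p ++ j :: q) := by
  intro p
  induction p with
  | nil =>
    intro i j q _
    rfl
  | cons m p ih =>
    intro i j q hN
    rw [List.length_cons] at hN
    have h1 := h i m j [] p q (by rw [List.length_nil]; omega)
    rw [asc, sub_eq_zero, pr_nil] at h1
    rw [pr_cons, h1, ih m j q (by omega), List.cons_append, pr_cons]

/-- **Artin's theorem**: the associator of three products of `g 0` and `g 1` vanishes -/
lemma artin (g : Fin 2 → A) : ∀ (N : ℕ) (i j m : Fin 2) (p q r : List (Fin 2)),
    p.length + q.length + r.length + 3 ≤ N →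
      asc (pr g i p) (pr g j q) (pr g m r) = 0 := by
  intro N
  induction N with
  | zero =>
    intro i j m p q r h
    omega
  | succ N ih =>
    have hm := pr_mul_of g N ih
    -- the case when the second and the third word begin with the same letter
    have key : ∀ (i j : Fin 2) (p q r : List (Fin 2)),
        p.length + q.length + r.length + 3 ≤ N + 1 →
        asc (pr g i p) (pr g j q) (pr g j r) = 0 := by
      intro i j p q r hN
      rcases q with _ | ⟨a, q⟩
      · rcases r with _ | ⟨b, r⟩
        · exact asc_yy _ _
        · rw [pr_nil, pr_cons, asc_cyc, asc_cyc, moufang5]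
          rw [List.length_cons, List.length_nil] at hN
          have h1 := ih j b i [] r p (by rw [List.length_nil]; omega)
          rw [pr_nil] at h1
          rw [h1, zero_mul]
      · rw [List.length_cons] at hN
        rcases r with _ | ⟨b, r⟩
        · rw [List.length_nil] at hN
          have h1 := ih j a i [] q p (by rw [List.length_nil]; omega)
          rw [pr_nil] at h1
          rw [pr_nil, pr_cons, asc_swap₂, asc_cyc, asc_cyc, moufang5, h1, zero_mul, neg_zero]
        · rw [List.length_cons] at hN
          have h0 := moufang6 (g j) (pr g j (b :: r)) (pr g a q) (pr g i p)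
          have h1 := hm (b :: r) j a q (by rw [List.length_cons]; omega)
          have h2 := ih j b i [] (r ++ a :: q) p
            (by rw [List.length_nil, List.length_append, List.length_cons]; omega)
          have h3 := ih j a i [] q p (by rw [List.length_nil]; omega)
          have h4 := ih j a i (b :: r) q p (by rw [List.length_cons]; omega)
          rw [pr_nil] at h2 h3
          rw [h1, List.cons_append, pr_cons, moufang5, h2, h3, h4] at h0
          simp only [zero_mul, zero_add, add_zero] at h0
          rw [asc_cyc, asc_swap₂, pr_cons g j a q, h0, neg_zero]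
    intro i j m p q r hN
    by_cases h1 : j = m
    · subst h1
      exact key i j p q r hN
    · by_cases h2 : i = j
      · subst h2
        rw [asc_cyc]
        exact key m i r p q (by omega)
      · have h3 : i = m := by omega
        subst h3
        rw [asc_cyc, asc_cyc]
        exact key j i q r p (by omega)

/-- products of words multiply by concatenation -/
lemma pr_mul (g : Fin 2 → A) (i j : Fin 2) (p q : List (Fin 2)) :
    pr g i p * pr g j q = pr g i (p ++ j :: q) :=
  pr_mul_of g (p.length + q.length + 2) (artin g _) p i j q le_rfl

end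

end Pool.Agent.H297.AL
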