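import Pool.Agent.H297.AL.Alt

/-!
# An upper bound for the graded dimensions of the free alternative algebra on two generators
-/

set_option autoImplicit false

noncomputable section

namespace Pool.Agent.H297.AL

variable (k : Type) [Field k]

/-- the generators -/
def gen (i : Fin 2) : Alt k := mon k (.of i)

/-- the underlying associative word, as its first letter and the remaining letters -/
def toL : FreeMagma (Fin 2) → Fin 2 × List (Fin 2)
  | .of j => (j, [])
  | .mul v w => ((toL v).1, (toL v).2 ++ (toL w).1 :: (toL w).2)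

lemma mon_eq (w : FreeMagma (Fin 2)) : mon k w = pr (gen k) (toL w).1 (toL w).2 := by
  induction w using FreeMagma.recOnMul with
  | ih1 j => rfl
  | ih2 v w hv hw =>
    have h : mon k (v * w) = mon k v * mon k w := mon_mul k v w
    rw [h, hv, hw, pr_mul]
    rfl

lemma cnt_eq (i : Fin 2) (w : FreeMagma (Fin 2)) :
    cnt i w = ((toL w).1 :: (toL w).2).count i := by
  induction w using FreeMagma.recOnMul with
  | ih1 j =>
    change (if j = i then 1 else 0) = List.count i [j]
    by_cases h : j = i
    · subst h; simp
    · rw [if_neg h, List.count_eq_zero_of_not_mem]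
      simpa using fun h' => h h'.symm
  | ih2 v w hv hw =>
    change cnt i v + cnt i w = _
    rw [hv, hw]
    change _ = (((toL v).1 :: ((toL v).2 ++ (toL w).1 :: (toL w).2))).count i
    rw [← List.cons_append, List.count_append]

/-- products of nonempty words -/
def prL : List (Fin 2) → Alt k
  | [] => 0
  | i :: l => pr (gen k) i l

/-- the content of a word -/
def ct (n : ℕ) (f : Fin n → Fin 2) : ℕ × ℕ := ((List.ofFn f).count 0, (List.ofFn f).count 1)

lemma count_add (l : List (Fin 2)) : l.count 0 + l.count 1 = l.length := by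
  induction l with
  | nil => rfl
  | cons i l ih =>
    rw [List.length_cons, ← ih]
    fin_cases i
    · simp [List.count_cons]; omega
    · simp [List.count_cons]; omega

lemma ct_add (n : ℕ) (f : Fin n → Fin 2) : (ct n f).1 + (ct n f).2 = n := by
  unfold ct
  rw [count_add, List.length_ofFn]

open scoped Classical in
lemma pieceA_le (d : ℕ × ℕ) :
    pieceA k d ≤ Submodule.span k ((Finset.univ.filter (fun f : Fin (d.1 + d.2) → Fin 2 =>
      ct (d.1 + d.2) f = d)).image (fun f => prL k (List.ofFn f)) : Finset (Alt k)) := by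
  classical
  refine Submodule.span_le.2 ?_
  rintro x ⟨w, hw, rfl⟩
  apply Submodule.subset_span
  rw [mon_eq]
  set l := (toL w).1 :: (toL w).2 with hl
  have hlen : l.length = d.1 + d.2 := by
    rw [← count_add, ← hw, wt, cnt_eq, cnt_eq]
  have hex : ∃ f : Fin (d.1 + d.2) → Fin 2, List.ofFn f = l := by
    rw [← hlen]
    exact ⟨l.get, List.ofFn_get l⟩
  obtain ⟨f, hf⟩ := hex
  rw [Finset.coe_image]
  refine ⟨f, ?_, ?_⟩
  · rw [Finset.coe_filter]
    refine ⟨Finset.mem_univ _, ?_⟩
    rw [ct, hf, ← hw, wt, cnt_eq, cnt_eq]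
  · change prL k (List.ofFn f) = _
    rw [hf, hl]
    rfl

lemma chA_le (d : ℕ × ℕ) : chA k d ≤ (Finset.univ.filter (fun f : Fin (d.1 + d.2) → Fin 2 =>
      ct (d.1 + d.2) f = d)).card := by
  classical
  unfold chA
  refine (Submodule.finrank_mono (pieceA_le k d)).trans ?_
  refine (finrank_span_finset_le_card _).trans ?_
  exact Finset.card_image_le

lemma sum_chA_le (n : ℕ) : ∑ d ∈ Finset.HasAntidiagonal.antidiagonal n, chA k d ≤ 2 ^ n := by
  classical
  have h : (Finset.univ : Finset (Fin n → Fin 2)).card =
      ∑ d ∈ Finset.HasAntidiagonal.antidiagonal n, (Finset.univ.filter (fun f : Fin n → Fin 2 =>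
        ct n f = d)).card := by
    refine Finset.card_eq_sum_card_fiberwise ?_
    intro f _
    rw [Finset.mem_coe, Finset.HasAntidiagonal.mem_antidiagonal]
    exact ct_add n f
  have h2 : (Finset.univ : Finset (Fin n → Fin 2)).card = 2 ^ n := by
    rw [Finset.card_univ, Fintype.card_fun, Fintype.card_fin, Fintype.card_fin]
  rw [← h2, h]
  refine Finset.sum_le_sum ?_
  intro d hd
  rw [Finset.HasAntidiagonal.mem_antidiagonal] at hd
  subst hd
  exact chA_le k d

end Pool.Agent.H297.AL
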