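import Mathlib

/-!
# Characters of `GL(V) × PSL₃`, for `dim V = 2`, and the identities defining `a(V)` and `b(V)`

A graded polynomial `GL(V)`-module with finite dimensional components and zero component of degree
`0` is given, in the completed Grothendieck ring, by its character, the function which maps a pair
`d = (i, j)` to the dimension of the weight space of weight `d`.
-/

set_option autoImplicit false

noncomputable section

open scoped Pointwise

namespace Pool.Agent.H297.AL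

/-- The ring of the finite integral combinations of the characters `x^d e^μ`, with `d ∈ ℕ²` a
weight of `GL(V)` and `μ` in the root lattice of type `A₂`; `μ = (i, j)` stands for
`i α₁ + j α₂`. -/
abbrev Ch : Type := AddMonoidAlgebra ℤ ((ℕ × ℕ) × (ℤ × ℤ))

/-- `x^d e^μ` -/
def mono (d : ℕ × ℕ) (μ : ℤ × ℤ) : Ch := AddMonoidAlgebra.single (d, μ) 1

/-- the roots of type `A₂` -/
def roots : Finset (ℤ × ℤ) := {(1, 0), (0, 1), (1, 1), (-1, 0), (0, -1), (-1, -1)}

/-- The contribution of the weight `d` to `λ(a [L(α₁+α₂)] + b [L(0)])`: the module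
`a [L(α₁+α₂)] + b [L(0)]` has in the weight `d` of `GL(V)` the roots with multiplicity `a d` and
the weight `0` with multiplicity `2 (a d) + b d`, and `λ` maps `x^d e^μ` to `1 - x^d e^μ`. -/
def fac (a b : ℕ × ℕ → ℕ) (d : ℕ × ℕ) : Ch :=
  (∏ r ∈ roots, (1 - mono d r) ^ a d) * (1 - mono d 0) ^ (2 * a d + b d)

/-- The coefficient of `x^d e^μ` in `Φ = λ(a [L(α₁+α₂)] + b [L(0)])`; only the factors with
nonzero weights `e ≤ d` matter. -/
def Phi (a b : ℕ × ℕ → ℕ) (d : ℕ × ℕ) (μ : ℤ × ℤ) : ℤ :=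
  (∏ e ∈ (Finset.Icc 0 d).erase 0, fac a b e).coeff (d, μ)

/-- The multiplicity of `L(l)`, `l` a dominant weight, in a character `f` invariant under the Weyl
group, by Weyl's character formula: the coefficient of `e^{l+ρ}` in `f · ∑_w sgn(w) e^{wρ}`, i.e.
`∑_w sgn(w) f(l + ρ - wρ)`. Here `ρ = (1, 1)`, and `ρ - wρ` runs through
`0, α₁, α₂, 2α₁+α₂, α₁+2α₂, 2α₁+2α₂`. -/
def mult (f : ℤ × ℤ → ℤ) (l : ℤ × ℤ) : ℤ :=
  f l - f (l + (1, 0)) - f (l + (0, 1)) + f (l + (2, 1)) + f (l + (1, 2)) - f (l + (2, 2))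

/-- The two identities `[Φ : L(0)] = 1` and `[Φ : L(α₁+α₂)] = -[V]`, which characterise
`(a(V), b(V))`. -/
def IsSol (a b : ℕ × ℕ → ℕ) : Prop :=
  (∀ d, mult (Phi a b d) (0, 0) = if d = 0 then 1 else 0) ∧
    (∀ d, mult (Phi a b d) (1, 1) = if d = (1, 0) ∨ d = (0, 1) then -1 else 0)

/-! ### Truncation -/

/-- the ideal of the elements without terms of `GL`-weight `≤ d` -/
def Jd (d : ℕ × ℕ) : Ideal Ch where
  carrier := {f | ∀ e ≤ d, ∀ μ, f.coeff (e, μ) = 0}
  zero_mem' := fun _ _ _ => rfl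
  add_mem' := fun {f g} hf hg e he μ => by
    rw [AddMonoidAlgebra.coeff_add, Finsupp.add_apply, hf e he μ, hg e he μ, add_zero]
  smul_mem' := fun g f hf e he μ => by
    change (g * f).coeff (e, μ) = 0
    classical
    by_contra h
    have h1 : (e, μ) ∈ g.coeff.support + f.coeff.support :=
      AddMonoidAlgebra.support_coeff_mul_subset g f (Finsupp.mem_support_iff.2 h)
    obtain ⟨p, _, q, hq, hpq⟩ := Finset.mem_add.1 h1
    have h2 : p.1 + q.1 = e := congrArg Prod.fst hpq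
    refine Finsupp.mem_support_iff.1 hq (hf q.1 ?_ q.2)
    exact le_trans (h2 ▸ le_add_self) he

lemma mono_mem {d e : ℕ × ℕ} (h : ¬ e ≤ d) (r : ℤ × ℤ) : mono e r ∈ Jd d := by
  intro e' he' μ
  unfold mono
  rw [AddMonoidAlgebra.coeff_single, Finsupp.single_apply, if_neg]
  intro h'
  have h2 : e = e' := congrArg Prod.fst h'
  exact h (h2 ▸ he')

lemma mk_fac (a b : ℕ × ℕ → ℕ) {d e : ℕ × ℕ} (h : ¬ e ≤ d) :
    Ideal.Quotient.mk (Jd d) (fac a b e) = 1 := by
  have h0 : ∀ r, Ideal.Quotient.mk (Jd d) (1 - mono e r) = 1 := by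
    intro r
    rw [map_sub, Ideal.Quotient.eq_zero_iff_mem.2 (mono_mem h r), sub_zero, map_one]
  unfold fac
  rw [map_mul, map_prod, map_pow, h0, one_pow, mul_one]
  refine Finset.prod_eq_one fun r _ => ?_
  rw [map_pow, h0, one_pow]

/-- the coefficient of `x^d` does not change if one takes more factors -/
lemma Phi_eq (a b : ℕ × ℕ → ℕ) {d D : ℕ × ℕ} (h : d ≤ D) (μ : ℤ × ℤ) :
    Phi a b d μ = (∏ e ∈ (Finset.Icc 0 D).erase 0, fac a b e).coeff (d, μ) := by
  classical
  have hsub : (Finset.Icc 0 d).erase 0 ⊆ (Finset.Icc 0 D).erase 0 :=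
    Finset.erase_subset_erase _ (Finset.Icc_subset_Icc_right h)
  have h1 : Ideal.Quotient.mk (Jd d) (∏ e ∈ (Finset.Icc 0 d).erase 0, fac a b e) =
      Ideal.Quotient.mk (Jd d) (∏ e ∈ (Finset.Icc 0 D).erase 0, fac a b e) := by
    rw [map_prod, map_prod]
    refine Finset.prod_subset hsub ?_
    intro e he1 he2
    refine mk_fac a b fun h3 => he2 ?_
    rw [Finset.mem_erase] at he1 ⊢
    exact ⟨he1.1, Finset.mem_Icc.2 ⟨bot_le, h3⟩⟩
  rw [Ideal.Quotient.eq] at h1
  have h2 := h1 d le_rfl μ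
  rw [AddMonoidAlgebra.coeff_sub, Finsupp.sub_apply, sub_eq_zero] at h2
  exact h2

end Pool.Agent.H297.AL
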