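import Pool.Agent.H297.AL.Rec
import Pool.Agent.H297.AL.Bound

/-!
# The end of the computation
-/

set_option autoImplicit false

namespace Pool.Agent.H297.AL

lemma sumN_eq (n : ℕ) (f : ℕ → ℤ) : sumN n f = ∑ x ∈ Finset.range n, f x := by
  induction n with
  | zero => rfl
  | succ n ih => rw [Finset.sum_range_succ, ← ih]; rfl

lemma sumN_congr {n : ℕ} {f g : ℕ → ℤ} (h : ∀ x < n, f x = g x) : sumN n f = sumN n g := by
  rw [sumN_eq, sumN_eq]
  exact Finset.sum_congr rfl fun x hx => h x (Finset.mem_range.1 hx)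

lemma sumN_zero {n : ℕ} {f : ℕ → ℤ} (h : ∀ x < n, f x = 0) : sumN n f = 0 := by
  rw [sumN_eq]
  exact Finset.sum_eq_zero fun x hx => h x (Finset.mem_range.1 hx)

/-- alternating sum over the Weyl group -/
def AS (f : ℤ → ℤ → ℤ) (i j : ℤ) : ℤ :=
  f (i - 1) (j - 1) - f i (j - 1) - f (i - 1) j + f (i + 1) j + f i (j + 1) - f (i + 1) (j + 1)

lemma AS_opR (k : ℤ) (f : ℤ → ℤ → ℤ) (i j : ℤ) : AS (opR k f) i j = opR k (AS f) i j := by
  unfold AS opR
  have e1 : ∀ x : ℤ, x - 1 - k = x - k - 1 := fun x => by ring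
  have e2 : ∀ x : ℤ, x - 1 + k = x + k - 1 := fun x => by ring
  have e3 : ∀ x : ℤ, x + 1 - k = x - k + 1 := fun x => by ring
  have e4 : ∀ x : ℤ, x + 1 + k = x + k + 1 := fun x => by ring
  simp only [e1, e2, e3, e4]
  ring

lemma AS_rhs (A B : ℕ → ℤ) (c : ℕ → ℤ → ℤ → ℤ) (n : ℕ) (i j : ℤ) :
    AS (rhs A B c n) i j = rhs A B (fun m => AS (c m)) n i j := by
  have h : ∀ i j, rhs A B c n i j = ∑ d ∈ Finset.range n, ∑ k ∈ Finset.range (n / (d + 1)),
      ((d + 1 : ℕ) : ℤ) * (A (d + 1) * opR ((k + 1 : ℕ) : ℤ) (c (n - (d + 1) * (k + 1))) i j +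
      (2 * A (d + 1) + B (d + 1)) * c (n - (d + 1) * (k + 1)) i j) := by
    intro i j
    unfold rhs
    rw [sumN_eq]
    refine Finset.sum_congr rfl fun d _ => ?_
    rw [sumN_eq]
  have h0 : AS (rhs A B c n) i j = rhs A B c n (i - 1) (j - 1) - rhs A B c n i (j - 1) -
    rhs A B c n (i - 1) j + rhs A B c n (i + 1) j + rhs A B c n i (j + 1) -
    rhs A B c n (i + 1) (j + 1) := rfl
  rw [h0, h, h, h, h, h, h]
  unfold rhs
  rw [sumN_eq]
  simp only [← Finset.sum_sub_distrib, ← Finset.sum_add_distrib]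
  refine Finset.sum_congr rfl fun d _ => ?_
  rw [sumN_eq]
  refine Finset.sum_congr rfl fun k _ => ?_
  have h2 := AS_opR ((k + 1 : ℕ) : ℤ) (c (n - (d + 1) * (k + 1))) i j
  rw [← h2]
  unfold AS
  ring

/-! ### Vanishing of the table outside a box -/

lemma tab_len : ∀ n ≤ 16, (tabs.getD n []).length ≤ n + 2 ∧
    ∀ r ∈ tabs.getD n [], r.length ≤ n + 2 := by
  decide

lemma gt_zero {n : ℕ} (hn : n ≤ 16) {x z : ℤ} (h : (n : ℤ) + 1 < x ∨ (n : ℤ) + 1 < -z) :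
    gt n x z = 0 := by
  obtain ⟨h1, h2⟩ := tab_len n hn
  unfold gt
  rcases h with h | h
  · rw [List.getD_eq_default (tabs.getD n []) [] (by omega)]
    rfl
  · by_cases h3 : x.toNat < (tabs.getD n []).length
    · rw [List.getD_eq_getElem (tabs.getD n []) [] h3]
      exact List.getD_eq_default _ _ (by
        have := h2 _ (List.getElem_mem h3)
        omega)
    · rw [List.getD_eq_default (tabs.getD n []) [] (by omega)]
      rfl

lemma lk_zero {n : ℕ} (hn : n ≤ 16) {i j : ℤ}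
    (h : (n : ℤ) + 1 < |i| ∨ (n : ℤ) + 1 < |j - i| ∨ (n : ℤ) + 1 < |j|) : lk n i j = 0 := by
  have h' : (n : ℤ) + 1 < i ∨ (n : ℤ) + 1 < -i ∨ (n : ℤ) + 1 < j - i ∨ (n : ℤ) + 1 < -(j - i) ∨
      (n : ℤ) + 1 < j ∨ (n : ℤ) + 1 < -j := by
    rcases h with h | h | h
    · rcases lt_abs.1 h with h | h <;> omega
    · rcases lt_abs.1 h with h | h <;> omega
    · rcases lt_abs.1 h with h | h <;> omega
  unfold lk lk3
  split_ifs <;> (try rw [neg_eq_zero]) <;> exact gt_zero hn (by omega)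

lemma rhs_zero {n : ℕ} (hn : n ≤ 17) (A B : ℕ → ℤ) {i j : ℤ}
    (h : (n : ℤ) + 1 < |i| ∨ (n : ℤ) + 1 < |j - i| ∨ (n : ℤ) + 1 < |j|) :
    rhs A B lk n i j = 0 := by
  unfold rhs
  refine sumN_zero fun d hd => sumN_zero fun k hk => ?_
  have h1 : (d + 1) * (k + 1) ≤ n := by
    calc (d + 1) * (k + 1) ≤ (d + 1) * (n / (d + 1)) := Nat.mul_le_mul_left _ hk
      _ ≤ n := Nat.mul_div_le n _
  have h2 : k + 1 ≤ (d + 1) * (k + 1) := Nat.le_mul_of_pos_left _ (by omega)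
  set m := n - (d + 1) * (k + 1) with hm
  have hm1 : m + (k + 1) ≤ n := by omega
  have hm2 : m ≤ 16 := by omega
  have h' : (n : ℤ) + 1 < i ∨ (n : ℤ) + 1 < -i ∨ (n : ℤ) + 1 < j - i ∨ (n : ℤ) + 1 < -(j - i) ∨
      (n : ℤ) + 1 < j ∨ (n : ℤ) + 1 < -j := by
    rcases h with h | h | h
    · rcases lt_abs.1 h with h | h <;> omega
    · rcases lt_abs.1 h with h | h <;> omega
    · rcases lt_abs.1 h with h | h <;> omega
  have key : ∀ i' j' : ℤ, ((m : ℤ) + 1 < i' ∨ (m : ℤ) + 1 < -i' ∨ (m : ℤ) + 1 < j' - i' ∨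
      (m : ℤ) + 1 < -(j' - i') ∨ (m : ℤ) + 1 < j' ∨ (m : ℤ) + 1 < -j') → lk m i' j' = 0 := by
    intro i' j' h3
    apply lk_zero hm2
    rcases h3 with h3 | h3 | h3 | h3 | h3 | h3
    · exact Or.inl (lt_abs.2 (Or.inl h3))
    · exact Or.inl (lt_abs.2 (Or.inr h3))
    · exact Or.inr (Or.inl (lt_abs.2 (Or.inl h3)))
    · exact Or.inr (Or.inl (lt_abs.2 (Or.inr h3)))
    · exact Or.inr (Or.inr (lt_abs.2 (Or.inl h3)))
    · exact Or.inr (Or.inr (lt_abs.2 (Or.inr h3)))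
  unfold opR
  push_cast
  rw [key i j (by omega), key _ _ (by omega), key _ _ (by omega), key _ _ (by omega),
    key _ _ (by omega), key _ _ (by omega), key _ _ (by omega)]
  ring

end Pool.Agent.H297.AL
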