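import Pool.Agent.H297.AL.Fin

/-!
# The recursion for the alternating sums
-/

set_option autoImplicit false

namespace Pool.Agent.H297.AL

variable (a b : ℕ × ℕ → ℕ)

/-- the coefficients as functions of two integers -/
noncomputable def c1 (n : ℕ) (i j : ℤ) : ℤ := cc a b 17 n (i, j)

/-- the alternating sums -/
noncomputable def C1 (n : ℕ) : ℤ → ℤ → ℤ := AS (c1 a b n)

lemma sum_roots (f : ℤ × ℤ → ℤ) (k : ℕ) (i j : ℤ) :
    ∑ r ∈ roots, f ((i, j) - (k + 1) • r) =
      opR ((k + 1 : ℕ) : ℤ) (fun i j => f (i, j)) i j := by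
  unfold roots opR
  rw [Finset.sum_insert (by decide), Finset.sum_insert (by decide), Finset.sum_insert (by decide),
    Finset.sum_insert (by decide), Finset.sum_insert (by decide), Finset.sum_singleton]
  simp only [Prod.smul_mk, Prod.mk_sub_mk, nsmul_eq_mul]
  push_cast
  simp only [mul_one, mul_zero, sub_zero, mul_neg, sub_neg_eq_add]
  ring

lemma c1_rec {n : ℕ} (hn : n ≤ 17) (i j : ℤ) :
    (n : ℤ) * c1 a b n i j = - rhs (tot a) (tot b) (c1 a b) n i j := by
  unfold c1
  rw [cc_rec a b hn]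
  congr 1
  unfold rhs
  rw [sumN_eq]
  refine Finset.sum_congr rfl fun d _ => ?_
  rw [sumN_eq]
  unfold XX YY
  rw [Finset.mul_sum, Finset.mul_sum, ← Finset.sum_add_distrib]
  refine Finset.sum_congr rfl fun k _ => ?_
  rw [sum_roots]
  ring

lemma C1_rec {n : ℕ} (hn : n ≤ 17) (i j : ℤ) :
    (n : ℤ) * C1 a b n i j = - rhs (tot a) (tot b) (C1 a b) n i j := by
  have h1 := AS_rhs (tot a) (tot b) (c1 a b) n i j
  have h2 : rhs (tot a) (tot b) (C1 a b) n i j = AS (rhs (tot a) (tot b) (c1 a b) n) i j :=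
    h1.symm
  rw [h2]
  unfold C1 AS
  have h3 := c1_rec a b hn
  linear_combination h3 (i - 1) (j - 1) - h3 i (j - 1) - h3 (i - 1) j + h3 (i + 1) j +
    h3 i (j + 1) - h3 (i + 1) (j + 1)

lemma c1_zero (i j : ℤ) : c1 a b 0 i j = if i = 0 ∧ j = 0 then 1 else 0 := by
  unfold c1
  rw [cc_eq a b (Nat.zero_le 17)]
  have h1 : Finset.HasAntidiagonal.antidiagonal 0 = {((0, 0) : ℕ × ℕ)} := rfl
  rw [h1, Finset.sum_singleton]
  unfold Phi
  have h2 : (Finset.Icc 0 ((0, 0) : ℕ × ℕ)).erase 0 = ∅ := rfl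
  rw [h2, Finset.prod_empty, AddMonoidAlgebra.one_def, AddMonoidAlgebra.coeff_single,
    Finsupp.single_apply]
  by_cases h : i = 0 ∧ j = 0
  · rw [if_pos h, if_pos]
    rw [h.1, h.2]
    rfl
  · rw [if_neg h, if_neg]
    intro h3
    apply h
    have h4 : ((0, 0) : ℤ × ℤ) = (i, j) := congrArg Prod.snd h3
    exact ⟨(congrArg Prod.fst h4).symm, (congrArg Prod.snd h4).symm⟩

lemma C1_zero (i j : ℤ) : C1 a b 0 i j = lk 0 i j := by
  unfold C1 AS
  simp only [c1_zero]
  by_cases h : (-1 ≤ i ∧ i ≤ 1) ∧ (-1 ≤ j ∧ j ≤ 1)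
  · obtain ⟨⟨h1, h2⟩, h3, h4⟩ := h
    interval_cases i <;> interval_cases j <;> rfl
  · have h5 : 1 < |i| ∨ 1 < |j| := by
      by_contra h6
      push Not at h6
      have h7 := abs_le.1 h6.1
      have h8 := abs_le.1 h6.2
      exact h ⟨h7, h8⟩
    rw [lk_zero (by norm_num) (by
      rcases h5 with h5 | h5
      · exact Or.inl (by simpa using h5)
      · exact Or.inr (Or.inr (by simpa using h5)))]
    have h6 : i < -1 ∨ 1 < i ∨ j < -1 ∨ 1 < j := by omega
    rw [if_neg (by omega), if_neg (by omega), if_neg (by omega), if_neg (by omega),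
      if_neg (by omega), if_neg (by omega)]
    ring

lemma opR_anti1 {f : ℤ → ℤ → ℤ} (h : ∀ i j, f (j - i) j = - f i j) (k i j : ℤ) :
    opR k f (j - i) j = - opR k f i j := by
  unfold opR
  have h1 := h (i + k) j
  have h2 := h (i - k) (j - k)
  have h3 := h i (j - k)
  have h4 := h (i - k) j
  have h5 := h (i + k) (j + k)
  have h6 := h i (j + k)
  have e1 : j - (i + k) = j - i - k := by ring
  have e2 : j - k - (i - k) = j - i := by ring
  have e3 : j - k - i = j - i - k := by ring
  have e4 : j - (i - k) = j - i + k := by ring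
  have e5 : j + k - (i + k) = j - i := by ring
  have e6 : j + k - i = j - i + k := by ring
  rw [e1] at h1
  rw [e2] at h2
  rw [e3] at h3
  rw [e4] at h4
  rw [e5] at h5
  rw [e6] at h6
  rw [h1, h2, h3, h4, h5, h6]
  ring

lemma opR_anti2 {f : ℤ → ℤ → ℤ} (h : ∀ i j, f i (i - j) = - f i j) (k i j : ℤ) :
    opR k f i (i - j) = - opR k f i j := by
  unfold opR
  have h1 := h i (j + k)
  have h2 := h (i - k) (j - k)
  have h3 := h (i - k) j
  have h4 := h i (j - k)
  have h5 := h (i + k) (j + k)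
  have h6 := h (i + k) j
  have e1 : i - (j + k) = i - j - k := by ring
  have e2 : i - k - (j - k) = i - j := by ring
  have e3 : i - k - j = i - j - k := by ring
  have e4 : i - (j - k) = i - j + k := by ring
  have e5 : i + k - (j + k) = i - j := by ring
  have e6 : i + k - j = i - j + k := by ring
  rw [e1] at h1
  rw [e2] at h2
  rw [e3] at h3
  rw [e4] at h4
  rw [e5] at h5
  rw [e6] at h6
  rw [h1, h2, h3, h4, h5, h6]
  ring

lemma lk0_anti1 (i j : ℤ) : lk 0 (j - i) j = - lk 0 i j := by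
  by_cases h : (-1 ≤ i ∧ i ≤ 1) ∧ (-1 ≤ j ∧ j ≤ 1) ∧ (-1 ≤ j - i ∧ j - i ≤ 1)
  · obtain ⟨⟨h1, h2⟩, ⟨h3, h4⟩, h5, h6⟩ := h
    interval_cases i <;> interval_cases j <;> first | rfl | omega
  · have h5 : 1 < |i| ∨ 1 < |j - i| ∨ 1 < |j| := by
      by_contra h6
      push Not at h6
      exact h ⟨abs_le.1 h6.1, abs_le.1 h6.2.2, abs_le.1 h6.2.1⟩
    rw [lk_zero (n := 0) (by norm_num) (i := i) (j := j) (by simpa using h5),
      lk_zero (n := 0) (by norm_num), neg_zero]
    have e : j - (j - i) = i := by ring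
    rw [e]
    simp only [Nat.cast_zero, zero_add]
    tauto

lemma lk0_anti2 (i j : ℤ) : lk 0 i (i - j) = - lk 0 i j := by
  by_cases h : (-1 ≤ i ∧ i ≤ 1) ∧ (-1 ≤ j ∧ j ≤ 1) ∧ (-1 ≤ j - i ∧ j - i ≤ 1)
  · obtain ⟨⟨h1, h2⟩, ⟨h3, h4⟩, h5, h6⟩ := h
    interval_cases i <;> interval_cases j <;> first | rfl | omega
  · have h5 : 1 < |i| ∨ 1 < |j - i| ∨ 1 < |j| := by
      by_contra h6
      push Not at h6
      exact h ⟨abs_le.1 h6.1, abs_le.1 h6.2.2, abs_le.1 h6.2.1⟩
    rw [lk_zero (n := 0) (by norm_num) (i := i) (j := j) (by simpa using h5),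
      lk_zero (n := 0) (by norm_num), neg_zero]
    have e : i - j - i = - j := by ring
    rw [e, abs_neg, abs_sub_comm i j]
    simp only [Nat.cast_zero, zero_add]
    tauto

/-- the alternating sums are antisymmetric -/
lemma C1_anti (n : ℕ) (hn : n ≤ 17) :
    (∀ i j, C1 a b n (j - i) j = - C1 a b n i j) ∧
      (∀ i j, C1 a b n i (i - j) = - C1 a b n i j) := by
  induction n using Nat.strong_induction_on with
  | _ n ih =>
    rcases Nat.eq_zero_or_pos n with h0 | h0
    · subst h0
      constructor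
      · intro i j
        rw [C1_zero, C1_zero, lk0_anti1]
      · intro i j
        rw [C1_zero, C1_zero, lk0_anti2]
    · have hlt : ∀ d k : ℕ, n - (d + 1) * (k + 1) < n := fun d k =>
        Nat.sub_lt h0 (Nat.mul_pos (by omega) (by omega))
      have hnz : (n : ℤ) ≠ 0 := by exact_mod_cast h0.ne'
      constructor
      · intro i j
        apply mul_left_cancel₀ hnz
        rw [mul_neg, C1_rec a b hn, C1_rec a b hn, neg_neg]
        unfold rhs
        rw [sumN_eq, sumN_eq, ← Finset.sum_neg_distrib]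
        refine Finset.sum_congr rfl fun d _ => ?_
        rw [sumN_eq, sumN_eq, ← Finset.sum_neg_distrib]
        refine Finset.sum_congr rfl fun k _ => ?_
        have h1 := (ih _ (hlt d k) (by have := hlt d k; omega)).1
        rw [opR_anti1 h1, h1]
        ring
      · intro i j
        apply mul_left_cancel₀ hnz
        rw [mul_neg, C1_rec a b hn, C1_rec a b hn, neg_neg]
        unfold rhs
        rw [sumN_eq, sumN_eq, ← Finset.sum_neg_distrib]
        refine Finset.sum_congr rfl fun d _ => ?_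
        rw [sumN_eq, sumN_eq, ← Finset.sum_neg_distrib]
        refine Finset.sum_congr rfl fun k _ => ?_
        have h1 := (ih _ (hlt d k) (by have := hlt d k; omega)).2
        rw [opR_anti2 h1, h1]
        ring

/-- it is enough to know the values at the dominant weights -/
lemma eq_lk {n : ℕ} {f : ℤ → ℤ → ℤ} (h1 : ∀ i j, f (j - i) j = - f i j)
    (h2 : ∀ i j, f i (i - j) = - f i j)
    (h : ∀ i j : ℤ, j ≤ 2 * i → i ≤ 2 * j → f i j = gt n i (-j)) (i j : ℤ) :
    f i j = lk n i j := by
  unfold lk lk3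
  split_ifs with c1 c2 c3 c4 c5
  · exact h i j (by omega) (by omega)
  · have := h2 i j
    rw [h i (i - j) (by omega) (by omega)] at this
    have e : -(i - j) = j - i := by ring
    rw [e] at this
    omega
  · have e1 := h2 i j
    have e2 := h1 i (i - j)
    have e : i - j - i = -j := by ring
    rw [e, e1, h (-j) (i - j) (by omega) (by omega)] at e2
    have e3 : -(i - j) = j - i := by ring
    rw [e3] at e2
    omega
  · have := h1 i j
    rw [h (j - i) j (by omega) (by omega)] at this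
    omega
  · have e1 := h1 i j
    have e2 := h2 (j - i) j
    have e : j - i - j = -i := by ring
    rw [e, e1, h (j - i) (-i) (by omega) (by omega), neg_neg i] at e2
    omega
  · have e1 := h1 i j
    have e2 := h2 (j - i) j
    have e : j - i - j = -i := by ring
    rw [e, e1] at e2
    have e3 := h1 (j - i) (-i)
    have e4 : -i - (j - i) = -j := by ring
    rw [e4, e2, h (-j) (-i) (by omega) (by omega), neg_neg i] at e3
    omega

end Pool.Agent.H297.AL
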