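import Pool.Agent.H297.AL.Fin2

/-!
# The character of the free alternative algebra on two generators
-/

set_option autoImplicit false

namespace Pool.Agent.H297.AL

lemma allN_spec {m : ℕ} {f : ℕ → Bool} (h : allN m f = true) : ∀ x < m, f x = true := by
  induction m with
  | zero => intro x hx; omega
  | succ m ih =>
    have h' : (f m && allN m f) = true := h
    rw [Bool.and_eq_true] at h'
    intro x hx
    rcases Nat.lt_succ_iff_lt_or_eq.1 hx with h1 | h1
    · exact ih h'.2 x h1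
    · rw [h1]; exact h'.1

lemma chk_all : ∀ n, 1 ≤ n → n ≤ 16 → chk n = true := by
  intro n h1 h2
  interval_cases n
  · exact chk_1
  · exact chk_2
  · exact chk_3
  · exact chk_4
  · exact chk_5
  · exact chk_6
  · exact chk_7
  · exact chk_8
  · exact chk_9
  · exact chk_10
  · exact chk_11
  · exact chk_12
  · exact chk_13
  · exact chk_14
  · exact chk_15
  · exact chk_16

/-- the table satisfies the recursion at the dominant weights -/
lemma lk_rec {n : ℕ} (h1 : 1 ≤ n) (h2 : n ≤ 16) {i j : ℤ} (hi : j ≤ 2 * i) (hj : i ≤ 2 * j) :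
    (n : ℤ) * lk n i j = - rhs av bv lk n i j := by
  by_cases h : i ≤ n + 1 ∧ j ≤ n + 1
  · obtain ⟨x, rfl⟩ := Int.eq_ofNat_of_zero_le (show 0 ≤ i by omega)
    obtain ⟨y, rfl⟩ := Int.eq_ofNat_of_zero_le (show 0 ≤ j by omega)
    have h3 := allN_spec (allN_spec (chk_all n h1 h2) x (by omega)) y (by omega)
    have h4 : (decide (2 * x < y) || decide (2 * y < x) || chk1 n x y) = true := h3
    rw [decide_eq_false (by omega), decide_eq_false (by omega), Bool.false_or,
      Bool.false_or] at h4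
    unfold chk1 at h4
    rw [beq_iff_eq] at h4
    linear_combination h4
  · have h3 : (n : ℤ) + 1 < |i| ∨ (n : ℤ) + 1 < |j - i| ∨ (n : ℤ) + 1 < |j| := by
      by_cases h4 : i ≤ n + 1
      · have h5 : (n : ℤ) + 1 < j := by
          by_contra h6
          exact h ⟨h4, by omega⟩
        exact Or.inr (Or.inr (lt_abs.2 (Or.inl h5)))
      · exact Or.inl (lt_abs.2 (Or.inl (by omega)))
    rw [lk_zero h2 h3, rhs_zero (by omega) av bv h3]
    ring

variable (a b : ℕ × ℕ → ℕ)

/-- comparison of the two recursions when all earlier values are known -/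
lemma rec_diff {m : ℕ} (hn : m + 1 ≤ 17)
    (hC : ∀ l < m + 1, ∀ i j, C1 a b l i j = lk l i j)
    (hA : ∀ l, 1 ≤ l → l < m + 1 → tot a l = av l)
    (hB : ∀ l, 1 ≤ l → l < m + 1 → tot b l = bv l) (i j : ℤ) :
    ((m + 1 : ℕ) : ℤ) * C1 a b (m + 1) i j = - rhs av bv lk (m + 1) i j -
      ((m + 1 : ℕ) : ℤ) * ((tot a (m + 1) - av (m + 1)) * opR 1 (lk 0) i j +
        (2 * (tot a (m + 1) - av (m + 1)) + (tot b (m + 1) - bv (m + 1))) * lk 0 i j) := by
  rw [C1_rec a b hn]
  have hlt : ∀ d k : ℕ, m + 1 - (d + 1) * (k + 1) < m + 1 := fun d k =>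
    Nat.sub_lt (by omega) (Nat.mul_pos (by omega) (by omega))
  have h1 : rhs (tot a) (tot b) (C1 a b) (m + 1) i j = rhs (tot a) (tot b) lk (m + 1) i j := by
    unfold rhs
    refine sumN_congr fun d _ => sumN_congr fun k _ => ?_
    have h2 : C1 a b (m + 1 - (d + 1) * (k + 1)) = lk (m + 1 - (d + 1) * (k + 1)) := by
      funext i j
      exact hC _ (hlt d k) i j
    rw [h2]
  rw [h1]
  have h3 : ∀ A B : ℕ → ℤ, rhs A B lk (m + 1) i j = (sumN m fun d =>
      sumN ((m + 1) / (d + 1)) fun k =>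
      ((d + 1 : ℕ) : ℤ) * (A (d + 1) * opR (k + 1 : ℕ) (lk (m + 1 - (d + 1) * (k + 1))) i j +
      (2 * A (d + 1) + B (d + 1)) * lk (m + 1 - (d + 1) * (k + 1)) i j)) +
      ((m + 1 : ℕ) : ℤ) * (A (m + 1) * opR 1 (lk 0) i j +
        (2 * A (m + 1) + B (m + 1)) * lk 0 i j) := by
    intro A B
    have h4 : (m + 1) / (m + 1) = 1 := Nat.div_self (by omega)
    have h5 : rhs A B lk (m + 1) i j = (sumN m fun d =>
      sumN ((m + 1) / (d + 1)) fun k =>
      ((d + 1 : ℕ) : ℤ) * (A (d + 1) * opR (k + 1 : ℕ) (lk (m + 1 - (d + 1) * (k + 1))) i j +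
      (2 * A (d + 1) + B (d + 1)) * lk (m + 1 - (d + 1) * (k + 1)) i j)) +
      (sumN ((m + 1) / (m + 1)) fun k =>
      ((m + 1 : ℕ) : ℤ) * (A (m + 1) * opR (k + 1 : ℕ) (lk (m + 1 - (m + 1) * (k + 1))) i j +
      (2 * A (m + 1) + B (m + 1)) * lk (m + 1 - (m + 1) * (k + 1)) i j)) := rfl
    rw [h5, h4]
    congr 1
    have h6 : m + 1 - (m + 1) * (0 + 1) = 0 := by omega
    have h7 : ∀ g : ℕ → ℤ, sumN 1 g = g 0 := fun g => by
      rw [sumN_eq, Finset.sum_range_one]
    rw [h7, h6]
    rfl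
  rw [h3 (tot a) (tot b), h3 av bv]
  have h8 : (sumN m fun d => sumN ((m + 1) / (d + 1)) fun k =>
      ((d + 1 : ℕ) : ℤ) * (tot a (d + 1) * opR (k + 1 : ℕ) (lk (m + 1 - (d + 1) * (k + 1))) i j +
      (2 * tot a (d + 1) + tot b (d + 1)) * lk (m + 1 - (d + 1) * (k + 1)) i j)) =
      (sumN m fun d => sumN ((m + 1) / (d + 1)) fun k =>
      ((d + 1 : ℕ) : ℤ) * (av (d + 1) * opR (k + 1 : ℕ) (lk (m + 1 - (d + 1) * (k + 1))) i j +
      (2 * av (d + 1) + bv (d + 1)) * lk (m + 1 - (d + 1) * (k + 1)) i j)) := by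
    refine sumN_congr fun d hd => ?_
    rw [hA (d + 1) (by omega) (by omega), hB (d + 1) (by omega) (by omega)]
  rw [h8]
  ring

variable {a b}

lemma mult_AS (f : ℤ × ℤ → ℤ) (x y : ℤ) :
    mult f (x, y) = AS (fun i j => f (i, j)) (x + 1) (y + 1) := by
  unfold mult AS
  simp only [Prod.mk_add_mk, add_zero, add_sub_cancel_right]
  have e1 : x + 1 + 1 = x + 2 := by ring
  have e2 : y + 1 + 1 = y + 2 := by ring
  rw [e1, e2]

/-- the total degree version of the two identities -/
lemma C1_value (n : ℕ) (hn : n ≤ 17) (x y : ℤ) :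
    C1 a b n (x + 1) (y + 1) =
      ∑ d ∈ Finset.HasAntidiagonal.antidiagonal n, mult (Phi a b d) (x, y) := by
  unfold C1
  have h : c1 a b n = fun i j => (fun μ : ℤ × ℤ =>
      ∑ d ∈ Finset.HasAntidiagonal.antidiagonal n, Phi a b d μ) (i, j) := by
    funext i j
    exact cc_eq a b hn (i, j)
  rw [h, ← mult_AS (fun μ : ℤ × ℤ =>
      ∑ d ∈ Finset.HasAntidiagonal.antidiagonal n, Phi a b d μ) x y]
  unfold mult
  simp only [Finset.sum_sub_distrib, Finset.sum_add_distrib]

lemma C1_11 (hs : IsSol a b) {n : ℕ} (h1 : 1 ≤ n) (hn : n ≤ 17) : C1 a b n 1 1 = 0 := by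
  have h := C1_value (a := a) (b := b) n hn 0 0
  rw [zero_add] at h
  rw [h]
  refine Finset.sum_eq_zero fun d hd => ?_
  rw [hs.1 d, if_neg]
  rintro rfl
  have := Finset.HasAntidiagonal.mem_antidiagonal.1 hd
  simp at this
  omega

lemma C1_22 (hs : IsSol a b) {n : ℕ} (h1 : 2 ≤ n) (hn : n ≤ 17) : C1 a b n 2 2 = 0 := by
  have h := C1_value (a := a) (b := b) n hn 1 1
  have e : (1 : ℤ) + 1 = 2 := by norm_num
  rw [e] at h
  rw [h]
  refine Finset.sum_eq_zero fun d hd => ?_
  rw [hs.2 d, if_neg]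
  have := Finset.HasAntidiagonal.mem_antidiagonal.1 hd
  rintro (rfl | rfl)
  · simp at this; omega
  · simp at this; omega

lemma C1_22' (hs : IsSol a b) : C1 a b 1 2 2 = -2 := by
  have h := C1_value (a := a) (b := b) 1 (by norm_num) 1 1
  have e : (1 : ℤ) + 1 = 2 := by norm_num
  rw [e] at h
  rw [h]
  have h1 : Finset.HasAntidiagonal.antidiagonal 1 = {((0, 1) : ℕ × ℕ), (1, 0)} := rfl
  rw [h1, Finset.sum_insert (by decide), Finset.sum_singleton, hs.2, hs.2, if_pos (by simp),
    if_pos (by simp)]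
  norm_num

lemma lk_values : ∀ n, 1 ≤ n → n ≤ 16 → lk n 1 1 = 0 ∧ lk n 2 2 = if n = 1 then -2 else 0 := by
  intro n h1 h2
  interval_cases n <;> exact ⟨rfl, rfl⟩

lemma main_ind (hs : IsSol a b) (n : ℕ) (hn : n ≤ 16) :
    (∀ i j, C1 a b n i j = lk n i j) ∧ (1 ≤ n → tot a n = av n ∧ tot b n = bv n) := by
  induction n using Nat.strong_induction_on with
  | _ n ih =>
    rcases n with _ | m
    · exact ⟨C1_zero a b, fun h => absurd h (by norm_num)⟩
    · have hd := rec_diff a b (m := m) (by omega) (fun l hl => (ih l hl (by omega)).1)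
        (fun l h1 hl => ((ih l hl (by omega)).2 h1).1)
        (fun l h1 hl => ((ih l hl (by omega)).2 h1).2)
      have hm : ((m + 1 : ℕ) : ℤ) ≠ 0 := by exact_mod_cast Nat.succ_ne_zero m
      have hv := lk_values (m + 1) (by omega) hn
      have hB : tot b (m + 1) = bv (m + 1) := by
        have h1 := hd 1 1
        have h2 := lk_rec (n := m + 1) (by omega) hn (i := 1) (j := 1) (by norm_num) (by norm_num)
        rw [← h2, C1_11 hs (by omega) (by omega), hv.1] at h1
        have h3 : opR 1 (lk 0) 1 1 = -2 := rfl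
        have h4 : lk 0 1 1 = 1 := rfl
        rw [h3, h4] at h1
        have h5 : ((m + 1 : ℕ) : ℤ) * (tot b (m + 1) - bv (m + 1)) = 0 := by
          linear_combination h1
        rcases mul_eq_zero.1 h5 with h6 | h6
        · exact absurd h6 hm
        · linear_combination h6
      have hA : tot a (m + 1) = av (m + 1) := by
        have h1 := hd 2 2
        have h2 := lk_rec (n := m + 1) (by omega) hn (i := 2) (j := 2) (by norm_num) (by norm_num)
        have h7 : C1 a b (m + 1) 2 2 = lk (m + 1) 2 2 := by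
          rw [hv.2]
          by_cases h8 : m + 1 = 1
          · rw [if_pos h8, h8]
            exact C1_22' hs
          · rw [if_neg h8]
            exact C1_22 hs (by omega) (by omega)
        rw [← h2, h7] at h1
        have h3 : opR 1 (lk 0) 2 2 = 1 := rfl
        have h4 : lk 0 2 2 = 0 := rfl
        rw [h3, h4] at h1
        have h5 : ((m + 1 : ℕ) : ℤ) * (tot a (m + 1) - av (m + 1)) = 0 := by
          linear_combination h1
        rcases mul_eq_zero.1 h5 with h6 | h6
        · exact absurd h6 hm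
        · linear_combination h6
      refine ⟨?_, fun _ => ⟨hA, hB⟩⟩
      obtain ⟨ha1, ha2⟩ := C1_anti a b (m + 1) (by omega)
      refine eq_lk ha1 ha2 fun i j hi hj => ?_
      have h1 := hd i j
      rw [hA, hB, sub_self, sub_self] at h1
      have h2 := lk_rec (n := m + 1) (by omega) hn hi hj
      have h3 : lk (m + 1) i j = gt (m + 1) i (-j) := by
        unfold lk lk3
        rw [if_pos (by omega), if_pos (by omega)]
      rw [← h3]
      apply mul_left_cancel₀ hm
      rw [h1, h2]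
      ring

lemma rhs17 : rhs av bv lk 17 2 2 = -34 := by decide +kernel

theorem tot17 (hs : IsSol a b) : tot a 17 = 2 ^ 17 + 2 := by
  have hd := rec_diff a b (m := 16) (by omega) (fun l hl => (main_ind hs l (by omega)).1)
    (fun l h1 hl => ((main_ind hs l (by omega)).2 h1).1)
    (fun l h1 hl => ((main_ind hs l (by omega)).2 h1).2) 2 2
  have h17 : (16 : ℕ) + 1 = 17 := rfl
  rw [h17, rhs17, C1_22 hs (by omega) (by omega)] at hd
  have h3 : opR 1 (lk 0) 2 2 = 1 := rfl
  have h4 : lk 0 2 2 = 0 := rfl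
  have h5 : av 17 = 2 ^ 17 := rfl
  rw [h3, h4, h5] at hd
  push_cast at hd
  linarith

/-- **The characters of `Alt(V)` and `B(Alt(V))` do not satisfy the identities for `dim V = 2`.** -/
theorem not_isSol (k : Type) [Field k] : ¬ IsSol (chA k) (chB k) := by
  intro hs
  have h1 := tot17 hs
  have h2 : tot (chA k) 17 ≤ 2 ^ 17 := by
    unfold tot
    exact_mod_cast sum_chA_le k 17
  omega

end Pool.Agent.H297.AL
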