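import Mathlib

/-!
# The numerical table
-/

set_option autoImplicit false

namespace Pool.Agent.H297.AL

/-- the coefficients of `∑_w sgn(w) e^{wρ} Φ_n` at the dominant weights, for `n ≤ 16` -/
def tabs : List (List (List ℤ)) :=
  [[[], [0, 1]],
   [[], [], [0, 0, -2]],
   [[], [], [0, 0, 0, 3], [0, 0, 3, 1]],
   [[], [], [0, 0, 0, 2], [0, 0, 2, 0, -2], [0, 0, 0, -2]],
   [[], [], [0, 0, 0, 1], [0, 0, 1, -4, -9, 1], [0, 0, 0, -9], [0, 0, 0, 1]],
   [[], [], [], [0, 0, 0, -4, -6, 6], [0, 0, 0, -6, 14, 6], [0, 0, 0, 6, 6]],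
   [[], [], [0, 0, 0, -1], [0, 0, -1, -1, -2, 21], [0, 0, 0, -2, 24, 9, -4], [0, 0, 0, 21, 9, -9], [0, 0, 0, 0, -4]],
   [[], [], [0, 0, 0, -2], [0, 0, -2, 4, 6, 28], [0, 0, 0, 6, 36, 0, -24], [0, 0, 0, 28, 0, -36, -4], [0, 0, 0, 0, -24, -4]],
   [[], [], [0, 0, 0, -3], [0, 0, -3, 11, 8, 36], [0, 0, 0, 8, 24, -36, -60, 10], [0, 0, 0, 36, -36, -94, 6, 6], [0, 0, 0, 0, -60, 6, 16], [0, 0, 0, 0, 10, 6]],
   [[], [], [0, 0, 0, -4], [0, 0, -4, 16, 4, 28], [0, 0, 0, 4, -12, -96, -122, 40], [0, 0, 0, 28, -96, -132, 64, 36], [0, 0, 0, 0, -122, 64, 66, -4], [0, 0, 0, 0, 40, 36, -4]],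
   [[], [], [0, 0, 0, -5], [0, 0, -5, 19, -14, 19], [0, 0, 0, -14, -72, -141, -140, 135], [0, 0, 0, 19, -141, -105, 262, 105, -20], [0, 0, 0, 0, -140, 262, 176, -39, -4], [0, 0, 0, 0, 135, 105, -39, -9], [0, 0, 0, 0, 0, -20, -4]],
   [[], [], [0, 0, 0, -6], [0, 0, -6, 16, -40, 2], [0, 0, 0, -40, -132, -138, -120, 310], [0, 0, 0, 2, -138, 72, 588, 174, -110], [0, 0, 0, 0, -120, 588, 240, -230, -24], [0, 0, 0, 0, 310, 174, -230, -72, 6], [0, 0, 0, 0, 0, -110, -24, 6]],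
   [[], [], [0, 0, 0, -6], [0, 0, -6, 11, -69, 11], [0, 0, 0, -69, -144, 18, 16, 629], [0, 0, 0, 11, 18, 445, 1061, 114, -399, 20], [0, 0, 0, 0, 16, 1061, 56, -779, -72, 15], [0, 0, 0, 0, 629, 114, -779, -160, 63, 1], [0, 0, 0, 0, 0, -399, -72, 63], [0, 0, 0, 0, 0, 20, 15, 1]],
   [[], [], [0, 0, 0, -6], [0, 0, -6, 8, -82, 48], [0, 0, 0, -82, -56, 354, 176, 1014], [0, 0, 0, 48, 354, 972, 1402, -354, -1060, 130], [0, 0, 0, 0, 176, 1402, -852, -1944, 28, 138], [0, 0, 0, 0, 1014, -354, -1944, -108, 378, 6], [0, 0, 0, 0, 0, -1060, 28, 378, 26, -2], [0, 0, 0, 0, 0, 130, 138, 6, -2]],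
   [[], [], [0, 0, 0, -4], [0, 0, -4, 17, -61, 137], [0, 0, 0, -61, 192, 900, 256, 1489], [0, 0, 0, 137, 900, 1293, 1155, -1638, -2315, 570], [0, 0, 0, 0, 256, 1155, -3112, -3889, 712, 561, -20], [0, 0, 0, 0, 1489, -1638, -3889, 843, 1350, -45, -4], [0, 0, 0, 0, 0, -2315, 712, 1350, 24, -45], [0, 0, 0, 0, 0, 570, 561, -45, -45, 1], [0, 0, 0, 0, 0, 0, -20, -4]],
   [[], [], [0, 0, 0, -6], [0, 0, -6, 52, 0, 242], [0, 0, 0, 0, 564, 1458, -176, 1934], [0, 0, 0, 242, 1458, 812, -408, -4038, -4158, 1808], [0, 0, 0, 0, -176, -408, -7104, -5910, 3344, 1704, -224], [0, 0, 0, 0, 1934, -4038, -5910, 4468, 3762, -464, -84], [0, 0, 0, 0, 0, -4158, 3344, 3762, -420, -324], [0, 0, 0, 0, 0, 1808, 1704, -464, -324, 12], [0, 0, 0, 0, 0, 0, -224, -84]],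
   [[], [], [0, 0, 0, -15], [0, 0, -15, 116, 83, 291], [0, 0, 0, 83, 920, 1722, -1548, 2484], [0, 0, 0, 291, 1722, -1602, -3872, -7347, -6373, 4885], [0, 0, 0, 0, -1548, -3872, -12368, -6169, 10128, 3852, -1176, 10], [0, 0, 0, 0, 2484, -7347, -6169, 14122, 7971, -2574, -414, 6], [0, 0, 0, 0, 0, -6373, 10128, 7971, -3008, -1397, 84], [0, 0, 0, 0, 0, 4885, 3852, -2574, -1397, 101, 12], [0, 0, 0, 0, 0, 0, -1176, -414, 84, 12], [0, 0, 0, 0, 0, 0, 10, 6]]]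

/-- the numbers `2 ^ n - #(necklaces of length n)`, `n ≤ 17` -/
def bval : List ℕ := [0, 0, 1, 4, 10, 24, 50, 108, 220, 452, 916, 1860, 3744, 7560, 15202, 30576, 61420, 123360]

/-- the entry of the table -/
def gt (n : ℕ) (x z : ℤ) : ℤ := ((tabs.getD n []).getD x.toNat []).getD (-z).toNat 0

/-- lookup at the weight with the coordinates `a + b + c = 0` -/
def lk3 (n : ℕ) (a b c : ℤ) : ℤ :=
  if b ≤ a then
    if c ≤ b then gt n a c
    else if c ≤ a then - gt n a b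
    else gt n c b
  else
    if c ≤ a then - gt n b c
    else if c ≤ b then gt n b a
    else - gt n c a

/-- lookup at the weight `i α₁ + j α₂` -/
def lk (n : ℕ) (i j : ℤ) : ℤ := lk3 n i (j - i) (-j)

/-- sums -/
def sumN : ℕ → (ℕ → ℤ) → ℤ
  | 0, _ => 0
  | n + 1, f => sumN n f + f n

/-- the operator `∑_r f(· - k r)` -/
def opR (k : ℤ) (f : ℤ → ℤ → ℤ) (i j : ℤ) : ℤ :=
  f (i - k) j + f i (j - k) + f (i - k) (j - k) + f (i + k) j + f i (j + k) + f (i + k) (j + k)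

/-- the right hand side of the recursion -/
def rhs (A B : ℕ → ℤ) (C : ℕ → ℤ → ℤ → ℤ) (n : ℕ) (i j : ℤ) : ℤ :=
  sumN n fun d => sumN (n / (d + 1)) fun k =>
    (d + 1 : ℕ) * (A (d + 1) * opR (k + 1 : ℕ) (C (n - (d + 1) * (k + 1))) i j +
      (2 * A (d + 1) + B (d + 1)) * C (n - (d + 1) * (k + 1)) i j)

/-- `2 ^ n` -/
def av (n : ℕ) : ℤ := (2 ^ n : ℕ)

/-- the values of `b` -/
def bv (n : ℕ) : ℤ := (bval.getD n 0 : ℕ)

/-- the check at one weight -/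
def chk1 (n : ℕ) (i j : ℤ) : Bool := (n : ℤ) * lk n i j + rhs av bv lk n i j == 0

/-- all natural numbers below `m` -/
def allN : ℕ → (ℕ → Bool) → Bool
  | 0, _ => true
  | m + 1, f => f m && allN m f

/-- the check at all dominant weights in a box -/
def chk (n : ℕ) : Bool := allN (n + 2) fun i => allN (n + 2) fun j =>
  (decide (2 * i < j) || decide (2 * j < i)) || chk1 n i j

lemma chk_1 : chk 1 = true := by decide +kernel
lemma chk_2 : chk 2 = true := by decide +kernel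
lemma chk_3 : chk 3 = true := by decide +kernel
lemma chk_4 : chk 4 = true := by decide +kernel
lemma chk_5 : chk 5 = true := by decide +kernel
lemma chk_6 : chk 6 = true := by decide +kernel
lemma chk_7 : chk 7 = true := by decide +kernel
lemma chk_8 : chk 8 = true := by decide +kernel
lemma chk_9 : chk 9 = true := by decide +kernel
lemma chk_10 : chk 10 = true := by decide +kernel
lemma chk_11 : chk 11 = true := by decide +kernel
lemma chk_12 : chk 12 = true := by decide +kernel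
lemma chk_13 : chk 13 = true := by decide +kernel
lemma chk_14 : chk 14 = true := by decide +kernel
lemma chk_15 : chk 15 = true := by decide +kernel
lemma chk_16 : chk 16 = true := by decide +kernel

end Pool.Agent.H297.AL
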