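import Pool.Agent.H297.AL.Total
import Pool.Agent.H297.AL.Table

/-!
# The recursion in the total degree
-/

set_option autoImplicit false

noncomputable section

namespace Pool.Agent.H297.AL

open PowerSeries

variable (a b : ℕ × ℕ → ℕ)

/-- the sum over the multidegrees of total degree `n` -/
def tot (w : ℕ × ℕ → ℕ) (n : ℕ) : ℤ :=
  ∑ e ∈ Finset.HasAntidiagonal.antidiagonal n, (w e : ℤ)

lemma sum_group (w : ℕ × ℕ → ℕ) (g : ℕ → ℤ) {n N : ℕ} (hg : ∀ s, n < s → g s = 0)
    (hn : n ≤ N) :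
    ∑ e ∈ (Finset.Icc 0 ((N, N) : ℕ × ℕ)).erase 0, (w e : ℤ) * g (td e) =
      ∑ s ∈ Finset.range n, tot w (s + 1) * g (s + 1) := by
  classical
  have h1 : ∑ e ∈ (Finset.Icc 0 ((N, N) : ℕ × ℕ)).erase 0, (w e : ℤ) * g (td e) =
      ∑ e ∈ ((Finset.Icc 0 ((N, N) : ℕ × ℕ)).erase 0).filter (fun e => td e ≤ n),
        (w e : ℤ) * g (td e) := by
    symm
    apply Finset.sum_filter_of_ne
    intro e _ h
    by_contra h2
    apply h
    rw [hg _ (by omega), mul_zero]
  rw [h1, ← Finset.sum_fiberwise_of_maps_to (g := fun e => td e - 1) (t := Finset.range n)]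
  · refine Finset.sum_congr rfl fun s hs => ?_
    rw [Finset.mem_range] at hs
    unfold tot
    rw [Finset.sum_mul]
    refine Finset.sum_congr ?_ ?_
    · ext ⟨i, j⟩
      rw [Finset.mem_filter, Finset.mem_filter, Finset.mem_erase, Finset.mem_Icc,
        Finset.HasAntidiagonal.mem_antidiagonal]
      constructor
      · rintro ⟨⟨⟨h0, _⟩, _⟩, h3⟩
        change i + j - 1 = s at h3
        have h4 : i + j ≠ 0 := fun h => h0 (by
          ext
          · change i = 0; omega
          · change j = 0; omega)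
        change i + j = s + 1
        omega
      · intro h
        change i + j = s + 1 at h
        refine ⟨⟨⟨?_, ⟨bot_le, ⟨?_, ?_⟩⟩⟩, ?_⟩, ?_⟩
        · intro h0
          have h5 : i = 0 := congrArg Prod.fst h0
          have h6 : j = 0 := congrArg Prod.snd h0
          omega
        · change i ≤ N; omega
        · change j ≤ N; omega
        · change i + j ≤ n; omega
        · change i + j - 1 = s; omega
    · intro e he
      rw [Finset.HasAntidiagonal.mem_antidiagonal] at he
      have h3 : td e = s + 1 := he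
      rw [h3]
  · intro e he
    rw [Finset.mem_filter] at he
    have h5 : td e ≠ 0 := by
      intro h6
      apply (Finset.mem_erase.1 he.1).1
      unfold td at h6
      ext
      · change e.1 = 0; omega
      · change e.2 = 0; omega
    rw [Finset.mem_range]
    omega

/-- the contributions of the roots -/
def XX (N n s : ℕ) (μ : ℤ × ℤ) : ℤ := ∑ k ∈ Finset.range (n / s),
  (s : ℤ) * ∑ r ∈ roots, cc a b N (n - s * (k + 1)) (μ - (k + 1) • r)

/-- the contributions of the weight `0` -/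
def YY (N n s : ℕ) (μ : ℤ × ℤ) : ℤ := ∑ k ∈ Finset.range (n / s),
  (s : ℤ) * cc a b N (n - s * (k + 1)) μ

lemma coeff_one_term (N n s : ℕ) (hs : 1 ≤ s) (r μ : ℤ × ℤ) :
    (coeff n (psi (GG a b N) * LL s (ee r))).coeff μ = ∑ k ∈ Finset.range (n / s),
      (s : ℤ) * cc a b N (n - s * (k + 1)) (μ - (k + 1) • r) := by
  rw [coeff_mul_LL _ _ _ hs, AddMonoidAlgebra.coeff_sum, Finsupp.finsetSum_apply]
  refine Finset.sum_congr rfl fun k _ => ?_
  rw [ee_pow, mul_left_comm, ← nsmul_eq_mul, AddMonoidAlgebra.coeff_smul, Finsupp.smul_apply,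
    coeff_mul_ee, nsmul_eq_mul]
  rfl

lemma coeff_Lf (N n : ℕ) (e : ℕ × ℕ) (he : 1 ≤ td e) (μ : ℤ × ℤ) :
    (coeff n (psi (GG a b N) * Lf a b e)).coeff μ =
      (a e : ℤ) * XX a b N n (td e) μ + ((2 * a e + b e : ℕ) : ℤ) * YY a b N n (td e) μ := by
  unfold Lf
  rw [mul_add, Finset.mul_sum, map_add, map_sum, AddMonoidAlgebra.coeff_add, Finsupp.add_apply,
    AddMonoidAlgebra.coeff_sum, Finsupp.finsetSum_apply]
  congr 1
  · unfold XX
    have h1 : ∀ r ∈ roots, (coeff n (psi (GG a b N) * (((a e : ℕ) : Zr⟦X⟧) *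
        LL (td e) (ee r)))).coeff μ = (a e : ℤ) * ∑ k ∈ Finset.range (n / td e),
          ((td e : ℕ) : ℤ) * cc a b N (n - td e * (k + 1)) (μ - (k + 1) • r) := by
      intro r _
      rw [mul_left_comm, ← nsmul_eq_mul, map_nsmul, AddMonoidAlgebra.coeff_smul,
        Finsupp.smul_apply, coeff_one_term a b N n _ he, nsmul_eq_mul]
    rw [Finset.sum_congr rfl h1, ← Finset.mul_sum, Finset.sum_comm]
    congr 1
    refine Finset.sum_congr rfl fun k _ => ?_
    rw [Finset.mul_sum]
  · unfold YY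
    rw [mul_left_comm, ← nsmul_eq_mul, map_nsmul, AddMonoidAlgebra.coeff_smul,
        Finsupp.smul_apply, coeff_one_term a b N n _ he, nsmul_eq_mul]
    congr 1
    refine Finset.sum_congr rfl fun k _ => ?_
    rw [smul_zero, sub_zero]

/-- the recursion -/
lemma cc_rec {N n : ℕ} (hn : n ≤ N) (μ : ℤ × ℤ) :
    (n : ℤ) * cc a b N n μ = - ∑ s ∈ Finset.range n,
      (tot a (s + 1) * XX a b N n (s + 1) μ +
        (2 * tot a (s + 1) + tot b (s + 1)) * YY a b N n (s + 1) μ) := by
  have h1 := congrArg (coeff n) (LD_GG a b N)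
  rw [coeff_th, map_neg, Finset.mul_sum, map_sum] at h1
  have h2 := congrArg (fun x : Zr => x.coeff μ) h1
  have h3 : ((n : Zr) * coeff n (psi (GG a b N))).coeff μ = (n : ℤ) * cc a b N n μ := by
    rw [← nsmul_eq_mul, AddMonoidAlgebra.coeff_smul, Finsupp.smul_apply, nsmul_eq_mul]
    rfl
  have h4 : (- ∑ e ∈ (Finset.Icc 0 ((N, N) : ℕ × ℕ)).erase 0,
      coeff n (psi (GG a b N) * Lf a b e)).coeff μ =
      - ∑ e ∈ (Finset.Icc 0 ((N, N) : ℕ × ℕ)).erase 0,
        ((a e : ℤ) * XX a b N n (td e) μ + ((2 * a e + b e : ℕ) : ℤ) * YY a b N n (td e) μ) := by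
    rw [AddMonoidAlgebra.coeff_neg, Finsupp.neg_apply, AddMonoidAlgebra.coeff_sum,
      Finsupp.finsetSum_apply]
    congr 1
    refine Finset.sum_congr rfl fun e he => ?_
    refine coeff_Lf a b N n e ?_ μ
    have h := (Finset.mem_erase.1 he).1
    unfold td
    by_contra h2
    apply h
    ext
    · change e.1 = 0; omega
    · change e.2 = 0; omega
  have h5 : (n : ℤ) * cc a b N n μ = - ∑ e ∈ (Finset.Icc 0 ((N, N) : ℕ × ℕ)).erase 0,
        ((a e : ℤ) * XX a b N n (td e) μ + ((2 * a e + b e : ℕ) : ℤ) * YY a b N n (td e) μ) := by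
    rw [← h3, ← h4]
    exact h2
  rw [h5]
  congr 1
  have hX : ∀ s, n < s → XX a b N n s μ = 0 := by
    intro s hs
    unfold XX
    rw [Nat.div_eq_of_lt hs, Finset.range_zero, Finset.sum_empty]
  have hY : ∀ s, n < s → YY a b N n s μ = 0 := by
    intro s hs
    unfold YY
    rw [Nat.div_eq_of_lt hs, Finset.range_zero, Finset.sum_empty]
  have h6 : ∀ e : ℕ × ℕ, ((a e : ℤ) * XX a b N n (td e) μ +
      ((2 * a e + b e : ℕ) : ℤ) * YY a b N n (td e) μ) =
      (a e : ℤ) * (XX a b N n (td e) μ + 2 * YY a b N n (td e) μ) +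
        (b e : ℤ) * YY a b N n (td e) μ := by
    intro e
    push_cast
    ring
  rw [Finset.sum_congr rfl fun e _ => h6 e, Finset.sum_add_distrib,
    sum_group a (fun s => XX a b N n s μ + 2 * YY a b N n s μ)
      (fun s hs => by rw [hX s hs, hY s hs, mul_zero, add_zero]) hn,
    sum_group b (fun s => YY a b N n s μ) hY hn, ← Finset.sum_add_distrib]
  refine Finset.sum_congr rfl fun s _ => ?_
  ring

end Pool.Agent.H297.AL
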