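import Mathlib

/-!
# Logarithmic derivatives of products of power series
-/

set_option autoImplicit false

noncomputable section

namespace Pool.Agent.H297.AL

open PowerSeries

variable {R : Type} [CommRing R]

/-- the operator `X d/dX` -/
def th (f : R⟦X⟧) : R⟦X⟧ := X * d⁄dX R f

lemma coeff_th (f : R⟦X⟧) (n : ℕ) : coeff n (th f) = (n : R) * coeff n f := by
  unfold th
  rcases n with _ | n
  · rw [coeff_zero_eq_constantCoeff, map_mul]
    simp
  · rw [coeff_succ_X_mul, coeff_derivative]
    push_cast
    ring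

lemma th_mul (f g : R⟦X⟧) : th (f * g) = th f * g + f * th g := by
  unfold th
  rw [Derivation.leibniz, smul_eq_mul, smul_eq_mul]
  ring

lemma th_one : th (1 : R⟦X⟧) = 0 := by
  unfold th
  rw [Derivation.map_one_eq_zero, mul_zero]

/-- `X f' = - f L` -/
def LD (f L : R⟦X⟧) : Prop := th f = - (f * L)

lemma LD_one : LD (1 : R⟦X⟧) 0 := by
  unfold LD
  rw [th_one, mul_zero, neg_zero]

lemma LD_mul {f g L M : R⟦X⟧} (hf : LD f L) (hg : LD g M) : LD (f * g) (L + M) := by
  unfold LD at *
  rw [th_mul, hf, hg]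
  ring

lemma LD_pow {f L : R⟦X⟧} (hf : LD f L) (m : ℕ) : LD (f ^ m) ((m : R⟦X⟧) * L) := by
  induction m with
  | zero =>
    rw [pow_zero, Nat.cast_zero, zero_mul]
    exact LD_one
  | succ m ih =>
    rw [pow_succ, Nat.cast_succ, add_mul, one_mul]
    exact LD_mul ih hf

lemma LD_prod {ι : Type} (s : Finset ι) (f L : ι → R⟦X⟧) (h : ∀ i ∈ s, LD (f i) (L i)) :
    LD (∏ i ∈ s, f i) (∑ i ∈ s, L i) := by
  classical
  induction s using Finset.induction_on with
  | empty =>
    rw [Finset.prod_empty, Finset.sum_empty]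
    exact LD_one
  | insert i s hi ih =>
    rw [Finset.prod_insert hi, Finset.sum_insert hi]
    exact LD_mul (h i (Finset.mem_insert_self i s))
      (ih fun j hj => h j (Finset.mem_insert_of_mem hj))

/-- the logarithmic derivative of `1 - u X^n` -/
def LL (n : ℕ) (u : R) : R⟦X⟧ := PowerSeries.mk fun m => if n ∣ m ∧ m ≠ 0 then (n : R) * u ^ (m / n) else 0

lemma LD_factor {n : ℕ} (hn : 1 ≤ n) (u : R) : LD (1 - monomial n u) (LL n u) := by
  unfold LD
  have h1 : th (1 - monomial n u) = - monomial n ((n : R) * u) := by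
    ext m
    rw [coeff_th, map_sub, map_neg, coeff_one, coeff_monomial, coeff_monomial]
    by_cases h : m = n
    · subst h
      rw [if_neg (by omega), if_pos rfl, if_pos rfl]
      ring
    · rw [if_neg h, if_neg h]
      by_cases h0 : m = 0
      · subst h0; simp
      · rw [if_neg h0]; simp
  rw [h1, sub_mul, one_mul]
  congr 1
  ext m
  rw [map_sub, coeff_monomial]
  have h2 : coeff m (monomial n u * LL n u) =
      if n ≤ m then u * coeff (m - n) (LL n u) else 0 := by
    have h3 : monomial n u = C u * X ^ n := by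
      ext m
      rw [coeff_C_mul_X_pow, coeff_monomial]
    rw [h3, mul_assoc, coeff_C_mul, coeff_X_pow_mul', mul_ite, mul_zero]
  rw [h2]
  unfold LL
  rw [coeff_mk, coeff_mk]
  by_cases hm : m = n
  · subst hm
    rw [if_pos rfl, if_pos ⟨dvd_rfl, by omega⟩, if_pos le_rfl, Nat.sub_self, if_neg (by simp),
      Nat.div_self hn]
    ring
  · rw [if_neg hm]
    by_cases hle : n ≤ m
    · rw [if_pos hle]
      by_cases hd : n ∣ m
      · rw [if_pos ⟨hd, by omega⟩, if_pos ⟨Nat.dvd_sub hd dvd_rfl, by omega⟩]
        have h4 : m / n = (m - n) / n + 1 := by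
          obtain ⟨t, rfl⟩ := hd
          have ht : 1 ≤ t := by
            rcases t with _ | t
            · omega
            · omega
          obtain ⟨s, rfl⟩ : ∃ s, t = s + 1 := ⟨t - 1, by omega⟩
          have h5 : n * (s + 1) - n = n * s := by
            rw [mul_add, mul_one, Nat.add_sub_cancel]
          rw [h5, Nat.mul_div_cancel_left _ hn, Nat.mul_div_cancel_left _ hn]
        rw [h4, pow_succ]
        ring
      · rw [if_neg (fun h => hd h.1), if_neg]
        · ring
        · rintro ⟨h1, _⟩
          apply hd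
          have := Nat.dvd_add h1 (dvd_refl n)
          rwa [Nat.sub_add_cancel hle] at this
    · rw [if_neg hle]
      rw [if_neg]
      · ring
      · rintro ⟨hd, h0⟩
        exact hle (Nat.le_of_dvd (Nat.pos_of_ne_zero h0) hd)

/-- the recursion for the coefficients -/
lemma LD_coeff {f L : R⟦X⟧} (h : LD f L) (n : ℕ) :
    (n : R) * coeff n f = - ∑ p ∈ Finset.HasAntidiagonal.antidiagonal n,
      coeff p.1 f * coeff p.2 L := by
  rw [← coeff_th, h, map_neg, coeff_mul]

end Pool.Agent.H297.AL
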