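import Pool.Agent.H297.AL.Char
import Pool.Agent.H297.AL.Series

/-!
# Passing to the total degree
-/

set_option autoImplicit false

noncomputable section

namespace Pool.Agent.H297.AL

open PowerSeries

/-- Laurent polynomials for the root lattice -/
abbrev Zr : Type := AddMonoidAlgebra ℤ (ℤ × ℤ)

/-- `e^μ` -/
def ee (μ : ℤ × ℤ) : Zr := AddMonoidAlgebra.single μ 1

lemma ee_mul (μ ν : ℤ × ℤ) : ee μ * ee ν = ee (μ + ν) := by
  unfold ee
  rw [AddMonoidAlgebra.single_mul_single, one_mul]

lemma ee_zero : ee 0 = 1 := rfl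

lemma ee_pow (μ : ℤ × ℤ) (n : ℕ) : ee μ ^ n = ee (n • μ) := by
  unfold ee
  rw [AddMonoidAlgebra.single_pow, one_pow]

lemma coeff_mul_ee (x : Zr) (μ ν : ℤ × ℤ) : (x * ee μ).coeff ν = x.coeff (ν - μ) := by
  unfold ee
  rw [AddMonoidAlgebra.coeff_mul_single_apply, mul_one, sub_eq_add_neg]

/-- the total degree -/
def td (d : ℕ × ℕ) : ℕ := d.1 + d.2

/-- the monomials of the total degree specialisation -/
def Fm : Multiplicative ((ℕ × ℕ) × (ℤ × ℤ)) →* Zr⟦X⟧ where
  toFun x := monomial (td (Multiplicative.toAdd x).1) (ee (Multiplicative.toAdd x).2)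
  map_one' := by
    change monomial 0 (1 : Zr) = 1
    rw [monomial_zero_eq_C_apply, map_one]
  map_mul' x y := by
    have h : td (Multiplicative.toAdd (x * y)).1 =
        td (Multiplicative.toAdd x).1 + td (Multiplicative.toAdd y).1 := by
      change td ((Multiplicative.toAdd x).1 + (Multiplicative.toAdd y).1) = _
      unfold td
      rw [Prod.fst_add, Prod.snd_add]
      omega
    rw [monomial_mul_monomial, ee_mul, h]
    rfl

/-- the total degree specialisation -/
def psi : Ch →ₐ[ℤ] Zr⟦X⟧ := AddMonoidAlgebra.lift ℤ (Zr⟦X⟧) _ Fm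

lemma psi_single (d : ℕ × ℕ) (μ : ℤ × ℤ) (c : ℤ) :
    psi (AddMonoidAlgebra.single (d, μ) c) = c • monomial (td d) (ee μ) :=
  AddMonoidAlgebra.lift_single _ _ _

lemma psi_mono (d : ℕ × ℕ) (μ : ℤ × ℤ) : psi (mono d μ) = monomial (td d) (ee μ) := by
  unfold mono
  rw [psi_single, one_smul]

lemma coeff_psi (f : Ch) (n : ℕ) (μ : ℤ × ℤ) :
    (coeff n (psi f)).coeff μ =
      ∑ d ∈ Finset.HasAntidiagonal.antidiagonal n, f.coeff (d, μ) := by
  classical
  induction f using AddMonoidAlgebra.induction_linear with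
  | zero => simp
  | add f g hf hg =>
    rw [map_add, map_add, AddMonoidAlgebra.coeff_add, Finsupp.add_apply, hf, hg,
      ← Finset.sum_add_distrib]
    rfl
  | single m c =>
    obtain ⟨d, ν⟩ := m
    rw [psi_single, map_zsmul, coeff_monomial, AddMonoidAlgebra.coeff_single]
    by_cases hd : n = td d
    · rw [if_pos hd, Finset.sum_eq_single d]
      · unfold ee
        rw [AddMonoidAlgebra.smul_single, AddMonoidAlgebra.coeff_single, Finsupp.single_apply,
          Finsupp.single_apply]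
        simp
      · intro e _ he
        rw [Finsupp.single_apply, if_neg]
        intro h
        exact he (congrArg Prod.fst h).symm
      · intro h
        exact absurd (Finset.HasAntidiagonal.mem_antidiagonal.2 hd.symm) h
    · rw [if_neg hd, smul_zero]
      symm
      refine Finset.sum_eq_zero fun e he => ?_
      rw [Finsupp.single_apply, if_neg]
      intro h
      have h2 : d = e := congrArg Prod.fst h
      apply hd
      rw [h2]
      exact (Finset.HasAntidiagonal.mem_antidiagonal.1 he).symm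

variable (a b : ℕ × ℕ → ℕ)

/-- the logarithmic derivative of one factor -/
def Lf (d : ℕ × ℕ) : Zr⟦X⟧ :=
  (∑ r ∈ roots, ((a d : ℕ) : Zr⟦X⟧) * LL (td d) (ee r)) +
    ((2 * a d + b d : ℕ) : Zr⟦X⟧) * LL (td d) (ee 0)

lemma LD_fac {d : ℕ × ℕ} (hd : 1 ≤ td d) : LD (psi (fac a b d)) (Lf a b d) := by
  have h0 : ∀ r, LD (psi (1 - mono d r)) (LL (td d) (ee r)) := by
    intro r
    rw [map_sub, map_one, psi_mono]
    exact LD_factor hd _
  unfold fac Lf
  rw [map_mul, map_prod, map_pow]
  refine LD_mul (LD_prod _ _ _ fun r _ => ?_) (LD_pow (h0 _) _)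
  rw [map_pow]
  exact LD_pow (h0 _) _

/-- the truncated product -/
def GG (N : ℕ) : Ch := ∏ e ∈ (Finset.Icc 0 ((N, N) : ℕ × ℕ)).erase 0, fac a b e

lemma LD_GG (N : ℕ) : LD (psi (GG a b N))
    (∑ e ∈ (Finset.Icc 0 ((N, N) : ℕ × ℕ)).erase 0, Lf a b e) := by
  unfold GG
  rw [map_prod]
  refine LD_prod _ _ _ fun e he => LD_fac a b ?_
  have h := (Finset.mem_erase.1 he).1
  unfold td
  by_contra h2
  apply h
  ext
  · change e.1 = 0; omega
  · change e.2 = 0; omega

/-- the coefficients of the total degree specialisation -/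
def cc (N n : ℕ) (μ : ℤ × ℤ) : ℤ := (coeff n (psi (GG a b N))).coeff μ

lemma cc_eq {N n : ℕ} (h : n ≤ N) (μ : ℤ × ℤ) :
    cc a b N n μ = ∑ d ∈ Finset.HasAntidiagonal.antidiagonal n, Phi a b d μ := by
  unfold cc
  rw [coeff_psi]
  refine Finset.sum_congr rfl fun d hd => ?_
  rw [Finset.HasAntidiagonal.mem_antidiagonal] at hd
  rw [Phi_eq a b (D := ((N, N) : ℕ × ℕ))]
  · rfl
  · exact ⟨by change d.1 ≤ N; omega, by change d.2 ≤ N; omega⟩

lemma coeff_mul_LL (f : Zr⟦X⟧) (n s : ℕ) (hs : 1 ≤ s) (u : Zr) :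
    coeff n (f * LL s u) = ∑ k ∈ Finset.range (n / s),
      coeff (n - s * (k + 1)) f * ((s : Zr) * u ^ (k + 1)) := by
  classical
  rw [coeff_mul]
  have h1 : ∀ p ∈ Finset.HasAntidiagonal.antidiagonal n, coeff p.1 f * coeff p.2 (LL s u) =
      if s ∣ p.2 ∧ p.2 ≠ 0 then coeff p.1 f * ((s : Zr) * u ^ (p.2 / s)) else 0 := by
    intro p _
    unfold LL
    rw [coeff_mk, mul_ite, mul_zero]
  rw [Finset.sum_congr rfl h1, ← Finset.sum_filter]
  symm
  refine Finset.sum_nbij' (fun k => (n - s * (k + 1), s * (k + 1))) (fun p => p.2 / s - 1)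
    ?_ ?_ ?_ ?_ ?_
  · intro k hk
    rw [Finset.mem_range] at hk
    have h2 : s * (k + 1) ≤ n := by
      calc s * (k + 1) ≤ s * (n / s) := Nat.mul_le_mul_left s hk
        _ ≤ n := Nat.mul_div_le n s
    rw [Finset.mem_filter, Finset.HasAntidiagonal.mem_antidiagonal]
    refine ⟨Nat.sub_add_cancel h2, Dvd.intro _ rfl, ?_⟩
    exact Nat.mul_ne_zero (by omega) (by omega)
  · rintro ⟨i, j⟩ hp
    rw [Finset.mem_filter, Finset.HasAntidiagonal.mem_antidiagonal] at hp
    obtain ⟨hij, ⟨t, ht⟩, h0⟩ := hp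
    change i + j = n at hij
    change j = s * t at ht
    change j ≠ 0 at h0
    rw [Finset.mem_range]
    change j / s - 1 < n / s
    have h3 : j / s ≤ n / s := Nat.div_le_div_right (by omega)
    have h4 : 1 ≤ j / s := by
      rw [ht, Nat.mul_div_cancel_left _ hs]
      rcases t with _ | t
      · rw [mul_zero] at ht; exact absurd ht h0
      · omega
    omega
  · intro k _
    change s * (k + 1) / s - 1 = k
    rw [Nat.mul_div_cancel_left _ hs]
    rfl
  · rintro ⟨i, j⟩ hp
    rw [Finset.mem_filter, Finset.HasAntidiagonal.mem_antidiagonal] at hp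
    obtain ⟨hij, ⟨t, ht⟩, h0⟩ := hp
    change i + j = n at hij
    change j = s * t at ht
    change j ≠ 0 at h0
    have h4 : 1 ≤ t := by
      rcases t with _ | t
      · rw [mul_zero] at ht; exact absurd ht h0
      · omega
    have h5 : s * (j / s - 1 + 1) = j := by
      rw [ht, Nat.mul_div_cancel_left _ hs, Nat.sub_add_cancel h4]
    change (n - s * (j / s - 1 + 1), s * (j / s - 1 + 1)) = (i, j)
    rw [h5]
    ext
    · change n - j = i; omega
    · rfl
  · intro k _
    change coeff (n - s * (k + 1)) f * ((s : Zr) * u ^ (k + 1)) =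
      coeff (n - s * (k + 1)) f * ((s : Zr) * u ^ (s * (k + 1) / s))
    rw [Nat.mul_div_cancel_left _ hs]

end Pool.Agent.H297.AL
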